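import Pool.Agent.W5h6.Skel.En
set_option autoImplicit false

/-! A subset which respects a choice at every level, and the mean of a product of ratios. -/

namespace Pool.Agent.W5h6.Skel

open Finset H112
open scoped Classical

variable {Γ : Type*} [AddCommGroup Γ]

/-- the relative size of the coset modulo `W` of `x` in its coset modulo `F` -/
noncomputable def ratio (F W : AddSubgroup Γ) (A : Finset Γ) (x : Γ) : ℝ :=
  ((cl A (fun y => (QuotientAddGroup.mk y : Γ ⧸ W)) x).card : ℝ) /
    (cl A (fun y => (QuotientAddGroup.mk y : Γ ⧸ F)) x).card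

theorem mk_eq_iff {F : AddSubgroup Γ} {x y : Γ} :
    (QuotientAddGroup.mk x : Γ ⧸ F) = QuotientAddGroup.mk y ↔ x - y ∈ F := by
  rw [eq_comm, QuotientAddGroup.eq]
  have : -y + x = x - y := by abel
  rw [this]

theorem ratio_nonneg (F W : AddSubgroup Γ) (A : Finset Γ) (x : Γ) : 0 ≤ ratio F W A x := by
  unfold ratio; positivity

theorem ratio_cl {F W W' : AddSubgroup Γ} (hF : F ≤ W') (hW : W ≤ W') (A : Finset Γ) {x z : Γ}
    (hx : x ∈ cl A (fun y => (QuotientAddGroup.mk y : Γ ⧸ W')) z) :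
    ratio F W (cl A (fun y => (QuotientAddGroup.mk y : Γ ⧸ W')) z) x = ratio F W A x := by
  have key : ∀ G : AddSubgroup Γ, G ≤ W' →
      cl (cl A (fun y => (QuotientAddGroup.mk y : Γ ⧸ W')) z)
        (fun y => (QuotientAddGroup.mk y : Γ ⧸ G)) x = cl A (fun y => (QuotientAddGroup.mk y : Γ ⧸ G)) x := by
    intro G hG
    ext y
    rw [mem_cl, mem_cl, mem_cl]
    rw [mem_cl] at hx
    constructor
    · rintro ⟨⟨h1, -⟩, h2⟩
      exact ⟨h1, h2⟩
    · rintro ⟨h1, h2⟩
      refine ⟨⟨h1, ?_⟩, h2⟩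
      rw [← hx.2]
      rw [mk_eq_iff] at h2 ⊢
      exact hG h2
  unfold ratio
  rw [key W hW, key F hF]

/-- **Tree lemma.** -/
theorem tree (J : ℕ) : ∀ (F W : ℕ → AddSubgroup Γ), (∀ j, F (j + 1) ≤ W j ∧ W j ≤ F j) →
    ∀ A : Finset Γ, ∃ B ⊆ A, (∀ j < J, ∀ x ∈ B, ∀ y ∈ B, x - y ∈ F j → x - y ∈ W j) ∧
      ∑ x ∈ A, ∏ j ∈ range J, ratio (F j) (W j) A x ≤ B.card := by
  induction J with
  | zero =>
    intro F W _ A
    exact ⟨A, subset_rfl, fun j hj => absurd hj (Nat.not_lt_zero j), by simp⟩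
  | succ J ih =>
    intro F W hFW A
    have hanti : ∀ j, F (j + 1) ≤ W 0 := by
      intro j
      induction j with
      | zero => exact (hFW 0).1
      | succ j ihj => exact ((hFW (j + 1)).1.trans (hFW (j + 1)).2).trans ihj
    -- the pieces
    let piece : Γ → Finset Γ := fun z => cl A (fun y => (QuotientAddGroup.mk y : Γ ⧸ W 0)) z
    have hpiece : ∀ {x z}, x ∈ A → x - z ∈ W 0 → piece x = piece z := by
      intro x z _ h
      exact cl_eq (mk_eq_iff.2 h)
    choose B0 hB0 hB1 hB2 using fun C : Finset Γ =>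
      ih (fun j => F (j + 1)) (fun j => W (j + 1)) (fun j => hFW (j + 1)) C
    let Ψ : Γ → ℝ := fun z => ∑ x ∈ piece z, ∏ j ∈ range J, ratio (F (j + 1)) (W (j + 1)) A x
    have hΨ : ∀ z, Ψ z ≤ (B0 (piece z)).card := by
      intro z
      refine le_trans (le_of_eq ?_) (hB2 (piece z))
      refine sum_congr rfl fun x hx => prod_congr rfl fun j _ => ?_
      rw [ratio_cl (hanti j) ((hFW (j + 1)).2.trans (hanti j)) A hx]
    -- the best piece in each class modulo `F 0`
    have hbest : ∀ q : Γ ⧸ F 0, (∃ x ∈ A, (QuotientAddGroup.mk x : Γ ⧸ F 0) = q) →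
        ∃ z ∈ A, (QuotientAddGroup.mk z : Γ ⧸ F 0) = q ∧
          ∀ x ∈ A, (QuotientAddGroup.mk x : Γ ⧸ F 0) = q → Ψ x ≤ Ψ z := by
      intro q hq
      obtain ⟨x, hx, hxq⟩ := hq
      obtain ⟨z, hz, hmax⟩ := Finset.exists_max_image
        (A.filter fun x => (QuotientAddGroup.mk x : Γ ⧸ F 0) = q) Ψ ⟨x, mem_filter.2 ⟨hx, hxq⟩⟩
      rw [mem_filter] at hz
      exact ⟨z, hz.1, hz.2, fun x hx hxq => hmax x (mem_filter.2 ⟨hx, hxq⟩)⟩
    let best : Γ ⧸ F 0 → Γ := fun q =>
      if h : ∃ x ∈ A, (QuotientAddGroup.mk x : Γ ⧸ F 0) = q then (hbest q h).choose else 0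
    have hbest1 : ∀ x ∈ A, best (QuotientAddGroup.mk x) ∈ A ∧
        (QuotientAddGroup.mk (best (QuotientAddGroup.mk x)) : Γ ⧸ F 0) = QuotientAddGroup.mk x ∧
        ∀ y ∈ A, (QuotientAddGroup.mk y : Γ ⧸ F 0) = QuotientAddGroup.mk x →
          Ψ y ≤ Ψ (best (QuotientAddGroup.mk x)) := by
      intro x hx
      have h : ∃ y ∈ A, (QuotientAddGroup.mk y : Γ ⧸ F 0) = QuotientAddGroup.mk x := ⟨x, hx, rfl⟩
      have h2 := (hbest _ h).choose_spec
      simp only [best]
      rw [dif_pos h]
      exact h2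
    set I : Finset (Γ ⧸ F 0) := A.image (fun x => (QuotientAddGroup.mk x : Γ ⧸ F 0)) with hI
    let B : Finset Γ := I.biUnion fun q => B0 (piece (best q))
    have hBsub : ∀ q ∈ I, ∀ x ∈ B0 (piece (best q)), x ∈ A ∧ x - best q ∈ W 0 ∧
        (QuotientAddGroup.mk x : Γ ⧸ F 0) = q := by
      intro q hq x hx
      obtain ⟨z, hz, rfl⟩ := mem_image.1 hq
      have h1 := hB0 _ hx
      rw [mem_cl] at h1
      refine ⟨h1.1, mk_eq_iff.1 h1.2, ?_⟩
      rw [← (hbest1 z hz).2.1, mk_eq_iff]
      exact (hFW 0).2 (mk_eq_iff.1 h1.2)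
    refine ⟨B, ?_, ?_, ?_⟩
    · intro x hx
      obtain ⟨q, hq, hxq⟩ := mem_biUnion.1 hx
      exact (hBsub q hq x hxq).1
    · intro j hj x hx y hy hxy
      obtain ⟨q, hq, hxq⟩ := mem_biUnion.1 hx
      obtain ⟨r, hr, hyr⟩ := mem_biUnion.1 hy
      have h0 : ∀ j, F j ≤ F 0 := by
        intro j
        cases j with
        | zero => exact le_rfl
        | succ j => exact (hanti j).trans (hFW 0).2
      have hqr : q = r := by
        rw [← (hBsub q hq x hxq).2.2, ← (hBsub r hr y hyr).2.2, mk_eq_iff]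
        exact h0 j hxy
      subst hqr
      cases j with
      | zero =>
        have h1 := (hBsub q hq x hxq).2.1
        have h2 := (hBsub q hq y hyr).2.1
        have h3 : x - y = (x - best q) - (y - best q) := by abel
        rw [h3]
        exact (W 0).sub_mem h1 h2
      | succ j => exact hB1 _ j (by omega) x hxq y hyr hxy
    · have hcard : B.card = ∑ q ∈ I, (B0 (piece (best q))).card := by
        refine card_biUnion fun q hq r hr hqr => ?_
        rw [Function.onFun, Finset.disjoint_left]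
        intro x hx hx'
        exact hqr ((hBsub q hq x hx).2.2.symm.trans (hBsub r hr x hx').2.2)
      rw [hcard]
      push_cast
      have hmaps : ∀ x ∈ A, (QuotientAddGroup.mk x : Γ ⧸ F 0) ∈ I := fun x hx =>
        mem_image_of_mem _ hx
      rw [← sum_fiberwise_of_maps_to hmaps]
      refine sum_le_sum fun q hq => ?_
      obtain ⟨z, hz, rfl⟩ := mem_image.1 hq
      have hfil : (A.filter fun i => (QuotientAddGroup.mk i : Γ ⧸ F 0) = QuotientAddGroup.mk z) =
          cl A (fun y => (QuotientAddGroup.mk y : Γ ⧸ F 0)) z := by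
        ext i
        rw [mem_cl, mem_filter]
      rw [hfil]
      set C := cl A (fun y => (QuotientAddGroup.mk y : Γ ⧸ F 0)) z with hC
      have hCpos : (0 : ℝ) < C.card := card_cl_pos hz
      -- sum over the class of the products
      have h1 : ∀ x ∈ C, ∏ j ∈ range (J + 1), ratio (F j) (W j) A x =
          (∏ j ∈ range J, ratio (F (j + 1)) (W (j + 1)) A x) * (piece x).card / C.card := by
        intro x hx
        rw [prod_range_succ']
        unfold ratio
        rw [mul_div_assoc]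
        congr 2
        congr 1
        rw [cl_eq (mem_cl.1 hx).2]
      rw [sum_congr rfl h1, ← sum_div, div_le_iff₀ hCpos]
      -- double counting
      have h2 : ∑ x ∈ C, (∏ j ∈ range J, ratio (F (j + 1)) (W (j + 1)) A x) * ((piece x).card : ℝ) =
          ∑ x ∈ C, Ψ x := by
        have h3 : ∀ x ∈ C, piece x = C.filter (fun y => (QuotientAddGroup.mk y : Γ ⧸ W 0) =
            QuotientAddGroup.mk x) := by
          intro x hx
          ext y
          rw [mem_filter, mem_cl, hC, mem_cl]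
          rw [mem_cl] at hx
          constructor
          · rintro ⟨h4, h5⟩
            refine ⟨⟨h4, ?_⟩, h5⟩
            rw [← hx.2, mk_eq_iff]
            exact (hFW 0).2 (mk_eq_iff.1 h5)
          · rintro ⟨⟨h4, -⟩, h5⟩
            exact ⟨h4, h5⟩
        have h4 : ∀ x ∈ C, Ψ x = ∑ y ∈ C, if (QuotientAddGroup.mk y : Γ ⧸ W 0) = QuotientAddGroup.mk x
            then ∏ j ∈ range J, ratio (F (j + 1)) (W (j + 1)) A y else 0 := by
          intro x hx
          simp only [Ψ]
          rw [h3 x hx, sum_filter]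
        rw [sum_congr rfl h4, sum_comm]
        refine sum_congr rfl fun x hx => ?_
        rw [h3 x hx, card_filter]
        push_cast
        rw [mul_sum]
        refine sum_congr rfl fun y _ => ?_
        by_cases h : (QuotientAddGroup.mk y : Γ ⧸ W 0) = QuotientAddGroup.mk x
        · rw [if_pos h, if_pos h.symm, mul_one]
        · rw [if_neg h, if_neg (fun h' => h h'.symm), mul_zero]
      rw [h2]
      calc ∑ x ∈ C, Ψ x ≤ ∑ x ∈ C, Ψ (best (QuotientAddGroup.mk z)) := by
            refine sum_le_sum fun x hx => ?_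
            rw [hC, mem_cl] at hx
            exact (hbest1 z hz).2.2 x hx.1 hx.2
        _ = C.card * Ψ (best (QuotientAddGroup.mk z)) := by rw [sum_const, nsmul_eq_mul]
        _ ≤ C.card * (B0 (piece (best (QuotientAddGroup.mk z)))).card :=
            mul_le_mul_of_nonneg_left (hΨ _) hCpos.le
        _ = _ := mul_comm _ _

/-- Jensen's inequality for the mean of a product of ratios -/
theorem jensen {A : Finset Γ} (hA : A.Nonempty) (F W : ℕ → AddSubgroup Γ) (J : ℕ) :
    A.card * Real.exp (-(∑ j ∈ range J, (En A (fun y => (QuotientAddGroup.mk y : Γ ⧸ W j)) -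
        En A (fun y => (QuotientAddGroup.mk y : Γ ⧸ F j))))) ≤
      ∑ x ∈ A, ∏ j ∈ range J, ratio (F j) (W j) A x := by
  have hA0 := card_pos' hA
  have hpos : ∀ x ∈ A, ∀ j, 0 < ratio (F j) (W j) A x := fun x hx j =>
    div_pos (card_cl_pos hx) (card_cl_pos hx)
  have h1 : ∀ j, En A (fun y => (QuotientAddGroup.mk y : Γ ⧸ W j)) -
      En A (fun y => (QuotientAddGroup.mk y : Γ ⧸ F j)) =
      -(∑ x ∈ A, Real.log (ratio (F j) (W j) A x)) / A.card := by
    intro j
    rw [En_eq hA, En_eq hA, ← sub_div, ← sum_sub_distrib, ← sum_neg_distrib]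
    congr 1
    refine sum_congr rfl fun x hx => ?_
    unfold ratio
    rw [Real.log_div (card_cl_pos hx).ne' (card_cl_pos hx).ne']
    ring
  have h2 : -(∑ j ∈ range J, (En A (fun y => (QuotientAddGroup.mk y : Γ ⧸ W j)) -
        En A (fun y => (QuotientAddGroup.mk y : Γ ⧸ F j)))) =
      ∑ x ∈ A, (A.card : ℝ)⁻¹ * Real.log (∏ j ∈ range J, ratio (F j) (W j) A x) := by
    rw [sum_congr rfl fun j _ => h1 j, ← mul_sum, ← sum_div, sum_neg_distrib, sum_comm]
    rw [neg_div, neg_neg, div_eq_inv_mul]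
    congr 1
    refine sum_congr rfl fun x hx => ?_
    rw [Real.log_prod fun j _ => (hpos x hx j).ne']
  rw [h2]
  have h3 := convexOn_exp.map_sum_le (t := A) (w := fun _ => (A.card : ℝ)⁻¹)
    (p := fun x => Real.log (∏ j ∈ range J, ratio (F j) (W j) A x))
    (fun _ _ => by positivity) (by rw [sum_const, nsmul_eq_mul, mul_inv_cancel₀ hA0.ne'])
    (fun _ _ => Set.mem_univ _)
  simp only [smul_eq_mul] at h3
  calc _ ≤ A.card * ∑ x ∈ A, (A.card : ℝ)⁻¹ *
        Real.exp (Real.log (∏ j ∈ range J, ratio (F j) (W j) A x)) :=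
        mul_le_mul_of_nonneg_left h3 hA0.le
    _ = _ := by
      rw [← mul_sum, ← mul_assoc, mul_inv_cancel₀ hA0.ne', one_mul]
      refine sum_congr rfl fun x hx => ?_
      rw [Real.exp_log (prod_pos fun j _ => hpos x hx j)]

end Pool.Agent.W5h6.Skel
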