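import Pool.Agent.W5h6.Skel.Mart
import Pool.Agent.W5h6.Skel.Tree
set_option autoImplicit false

/-! Subgroups of `Γ` instead of subgroups of its quotients; one level of the filtration. -/

namespace Pool.Agent.W5h6.Skel

open Finset H112
open scoped Classical

section gen

variable {Ω Ω' : Type*} {Q R : Type*} [AddCommGroup Q] [AddCommGroup R]

/-- a homomorphism contracts the growth of the entropy -/
theorem contraction {S : Finset Ω} {T : Finset Ω'} (hS : S.Nonempty) (hT : T.Nonempty) (ρ : Ω → R)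
    (σ : Ω' → R) (φ : R →+ Q) :
    En (S ×ˢ T) (fun p => φ (ρ p.1 + σ p.2)) + En S ρ ≤
      En (S ×ˢ T) (fun p => ρ p.1 + σ p.2) + En S (fun x => φ (ρ x)) := by
  have hST := hS.product hT
  have h := En_submod hST (fun p => ρ p.1 + σ p.2) (fun p => σ p.2) (fun p => φ (ρ p.1 + σ p.2))
  have e1 : En (S ×ˢ T) (fun p => (ρ p.1 + σ p.2, σ p.2, φ (ρ p.1 + σ p.2))) = En S ρ + En T σ := by
    rw [← En_prod hS hT]
    refine En_congr _ _ fun x _ y _ => ?_
    simp only [Prod.mk.injEq]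
    constructor
    · rintro ⟨h1, h2⟩
      rw [h1, h2]
      exact ⟨rfl, rfl, rfl⟩
    · rintro ⟨h1, h2, -⟩
      rw [h2] at h1
      exact ⟨add_right_cancel h1, h2⟩
  have e2 : En (S ×ˢ T) (fun p => (ρ p.1 + σ p.2, φ (ρ p.1 + σ p.2))) =
      En (S ×ˢ T) (fun p => ρ p.1 + σ p.2) := by
    refine En_congr _ _ fun x _ y _ => ?_
    simp only [Prod.mk.injEq]
    exact ⟨fun h1 => ⟨h1, by rw [h1]⟩, fun h1 => h1.1⟩
  have e3 : En (S ×ˢ T) (fun p => (σ p.2, φ (ρ p.1 + σ p.2))) =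
      En S (fun x => φ (ρ x)) + En T σ := by
    rw [← En_prod hS hT]
    refine En_congr _ _ fun x _ y _ => ?_
    simp only [Prod.mk.injEq]
    constructor
    · rintro ⟨h1, h2⟩
      rw [map_add, map_add, h1, h2]
      exact ⟨rfl, rfl⟩
    · rintro ⟨h1, h2⟩
      rw [map_add, map_add, h1] at h2
      exact ⟨add_right_cancel h2, h1⟩
  rw [e1, e2, e3] at h
  linarith

theorem le_En_add {S : Finset Ω} {T : Finset Ω'} (hS : S.Nonempty) (hT : T.Nonempty) (ρ : Ω → R)
    (σ : Ω' → R) : En S ρ ≤ En (S ×ˢ T) (fun p => ρ p.1 + σ p.2) := by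
  have h := H_le_mul (law_PL hS ρ) (law_PL hT σ)
  rwa [PL_mul, H_PL, H_PL] at h

/-- lower bound for the entropy of a sum of laws which are close to uniform laws -/
theorem lower_sum {S : Finset Ω} {T : Finset Ω'} (hS : S.Nonempty) (hT : T.Nonempty) (π : Ω → Q)
    (ρ : Ω' → R) (φ : R →+ Q) (V : AddSubgroup Q) (V' : AddSubgroup R) [Finite V] [Finite V'] :
    Real.log (Nat.card (V ⊔ V'.map φ : AddSubgroup Q)) ≤
      En (S ×ˢ T) (fun p => π p.1 + φ (ρ p.2)) +
      (En S (fun x => (QuotientAddGroup.mk (π x) : Q ⧸ V)) + Real.log (Nat.card V) - En S π) +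
      (En T (fun x => (QuotientAddGroup.mk (ρ x) : R ⧸ V')) + Real.log (Nat.card V') - En T ρ) := by
  let _ : Fintype V := Fintype.ofFinite V
  let _ : Fintype V' := Fintype.ofFinite V'
  set P := PL S π with hP
  set Z := PL T (fun y => φ (ρ y)) with hZ
  set U := UV V with hU
  set U' := PL (univ : Finset V') (fun v => φ v) with hU'
  have lP : Law P := law_PL hS π
  have lZ : Law Z := law_PL hT _
  have lU : Law U := law_UV V
  have lU' : Law U' := law_PL univ_nonempty _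
  have h1 := H_submod lZ lP lU
  have h2 := H_submod (lP.mul lU) lZ lU'
  have h3 := H_le_mul (lU.mul lU') (lP.mul lZ)
  have h4 : H (U * U') = Real.log (Nat.card (V ⊔ V'.map φ : AddSubgroup Q)) := H_UV_UV V V' φ
  have h5 : H (P * U) = En S (fun x => (QuotientAddGroup.mk (π x) : Q ⧸ V)) +
      Real.log (Nat.card V) := H_mul_UV hS π V
  have h6 : H (Z * U') = En (T ×ˢ (univ : Finset V')) (fun p => φ (ρ p.1 + (p.2 : R))) := by
    rw [hZ, hU', PL_mul, H_PL]
    congr 1
    funext p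
    rw [map_add]
  have h7 := contraction hT (univ_nonempty (α := V')) ρ (fun v : V' => (v : R)) φ
  rw [← h6, En_add_uniform hT ρ V'] at h7
  have h8 : H Z = En T (fun x => φ (ρ x)) := rfl
  have h9 : H (P * Z) = En (S ×ˢ T) (fun p => π p.1 + φ (ρ p.2)) := by
    rw [hP, hZ, PL_mul, H_PL]
  have e1 : Z * P * U = P * U * Z := by ring
  have e2 : Z * P = P * Z := mul_comm _ _
  have e3 : U * U' * (P * Z) = P * U * Z * U' := by ring
  rw [e1, e2] at h1
  rw [e3] at h3
  have h10 : H P = En S π := rfl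
  linarith

end gen

variable {Γ : Type*} [AddCommGroup Γ]

/-- entropy modulo a subgroup -/
noncomputable def Em (A : Finset Γ) (G : AddSubgroup Γ) : ℝ :=
  En A (fun y => (QuotientAddGroup.mk y : Γ ⧸ G))

theorem card_map {F W : AddSubgroup Γ} :
    Nat.card (W.map (QuotientAddGroup.mk' F)) = F.relIndex W := by
  rw [← AddSubgroup.relIndex_bot_left, ← AddSubgroup.relIndex_comap]
  congr 1
  exact QuotientAddGroup.ker_mk' F

theorem Em_map {S : Finset Γ} {F W : AddSubgroup Γ} (h : F ≤ W) :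
    En S (fun x => (QuotientAddGroup.mk (QuotientAddGroup.mk x : Γ ⧸ F) :
      (Γ ⧸ F) ⧸ (W.map (QuotientAddGroup.mk' F)))) = Em S W := by
  unfold Em
  refine En_congr _ _ fun x _ y _ => ?_
  rw [mk_eq_iff, mk_eq_iff, ← QuotientAddGroup.mk_sub]
  constructor
  · intro h1
    exact ⟨x - y, h1, rfl⟩
  · rintro ⟨z, hz, hzz⟩
    have h2 : (QuotientAddGroup.mk z : Γ ⧸ F) = QuotientAddGroup.mk (x - y) := hzz
    rw [mk_eq_iff] at h2
    have h3 : x - y = z - (z - (x - y)) := by abel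
    rw [h3]
    exact W.sub_mem hz (h h2)

theorem Em_mono {S : Finset Γ} {F W : AddSubgroup Γ} (h : F ≤ W) : Em S W ≤ Em S F := by
  refine En_mono _ _ fun x _ y _ hxy => ?_
  rw [mk_eq_iff] at hxy ⊢
  exact h hxy

/-- chain rule for `F' ≤ F` -/
theorem Em_chain {A : Finset Γ} (hA : A.Nonempty) {F W : AddSubgroup Γ} (h : W ≤ F) :
    Em A W = Em A F + (∑ x ∈ A, Em (cl A (fun y => (QuotientAddGroup.mk y : Γ ⧸ F)) x) W) / A.card := by
  have h1 := En_chain hA (fun y => (QuotientAddGroup.mk y : Γ ⧸ W))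
    (fun y => (QuotientAddGroup.mk y : Γ ⧸ F))
  rw [show Em A F + (∑ x ∈ A, Em (cl A (fun y => (QuotientAddGroup.mk y : Γ ⧸ F)) x) W) / A.card =
    _ from h1.symm]
  unfold Em
  refine En_congr _ _ fun x _ y _ => ?_
  simp only [Prod.mk.injEq]
  constructor
  · intro h2
    exact h2.1
  · intro h2
    refine ⟨h2, ?_⟩
    rw [mk_eq_iff] at h2 ⊢
    exact h h2

/-- the entropy of `x + ψ y` modulo `G` -/
noncomputable def Es (A : Finset Γ) (ψ : Γ → Γ) (G : AddSubgroup Γ) : ℝ :=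
  En (A ×ˢ A) (fun p => (QuotientAddGroup.mk (p.1 + ψ p.2) : Γ ⧸ G))

theorem Es_le {A : Finset Γ} (hA : A.Nonempty) (ψ : Γ → Γ) (G : AddSubgroup Γ) :
    Es A ψ G - Em A G ≤ Real.log ((A ×ˢ A).image fun p => p.1 + ψ p.2).card - Real.log A.card := by
  have h := contraction hA hA (fun x => x) ψ (QuotientAddGroup.mk' G)
  have h1 := En_le_log_card (hA.product hA) (fun p => p.1 + ψ p.2)
  have h2 := En_id hA (fun x => x) (Function.injective_id.injOn)
  rw [h2] at h
  have h3 : En (A ×ˢ A) (fun p => QuotientAddGroup.mk' G (p.1 + ψ p.2)) = Es A ψ G := rfl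
  have h4 : En A (fun x => QuotientAddGroup.mk' G x) = Em A G := rfl
  rw [h3, h4] at h
  linarith

theorem Em_le_Es {A : Finset Γ} (hA : A.Nonempty) (ψ : Γ → Γ) (G : AddSubgroup Γ) :
    Em A G ≤ Es A ψ G := by
  have h := le_En_add hA hA (fun x => (QuotientAddGroup.mk x : Γ ⧸ G))
    (fun x => (QuotientAddGroup.mk (ψ x) : Γ ⧸ G))
  exact h

/-- step of the filtration for sums `x + ψ y`: `F' ≤ F`, classes of `x` modulo `F`, of `y` modulo `L` -/
theorem Es_step {A : Finset Γ} (hA : A.Nonempty) (ψ : Γ → Γ) {F F' L : AddSubgroup Γ} (hF : F' ≤ F)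
    (hψ : ∀ x ∈ A, ∀ y ∈ A, x - y ∈ L → ψ x - ψ y ∈ F) :
    Es A ψ F + (∑ x ∈ A, ∑ y ∈ A, En (cl A (fun y => (QuotientAddGroup.mk y : Γ ⧸ F)) x ×ˢ
      cl A (fun y => (QuotientAddGroup.mk y : Γ ⧸ L)) y)
        (fun p => (QuotientAddGroup.mk (p.1 + ψ p.2) : Γ ⧸ F'))) / (A.card * A.card) ≤ Es A ψ F' := by
  have hAA := hA.product hA
  have h := En_step hAA (fun p => (QuotientAddGroup.mk (p.1 + ψ p.2) : Γ ⧸ F'))
    (fun p => ((QuotientAddGroup.mk p.1 : Γ ⧸ F), (QuotientAddGroup.mk p.2 : Γ ⧸ L)))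
    (fun p => (QuotientAddGroup.mk (p.1 + ψ p.2) : Γ ⧸ F)) ?_ ?_
  · rw [sum_product, card_product, Nat.cast_mul] at h
    simp only [cl_prod] at h
    exact h
  · intro x _ y _ hxy
    rw [mk_eq_iff] at hxy ⊢
    exact hF hxy
  · intro x hx y hy hxy
    rw [mem_product] at hx hy
    simp only [Prod.mk.injEq] at hxy
    rw [mk_eq_iff, mk_eq_iff] at hxy
    rw [mk_eq_iff]
    have h1 : x.1 + ψ x.2 - (y.1 + ψ y.2) = (x.1 - y.1) + (ψ x.2 - ψ y.2) := by abel
    rw [h1]
    exact F.add_mem hxy.1 (hψ _ hx.2 _ hy.2 hxy.2)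

/-- one level: there is `W` between `F'` and `F` such that the law of `x` modulo `F'`, given `x`
modulo `F`, is close to the uniform law on a coset of `W`, on the average -/
theorem level' {A : Finset Γ} (hA : A.Nonempty) {F F' : AddSubgroup Γ} {m t : ℕ} (hm : 0 < m)
    (ht : 1 ≤ t) (hmt : m ≤ 2 ^ t) (hF : F' ≤ F) (hmF : ∀ x ∈ F, m • x ∈ F') :
    ∃ W : AddSubgroup Γ, F' ≤ W ∧ W ≤ F ∧ F'.relIndex W ≠ 0 ∧
      (Em A W - Em A F) + (Real.log (F'.relIndex W) - (Em A F' - Em A W)) ≤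
        184520 * t * ((Es A (fun y => y) F' - Em A F') - (Es A (fun y => y) F - Em A F)) := by
  have hA0 := card_pos' hA
  set N := F.map (QuotientAddGroup.mk' F') with hN
  obtain ⟨V, hVN, hVf, hV⟩ := level (N := N) hA (fun y => (QuotientAddGroup.mk y : Γ ⧸ F'))
    (fun y => (QuotientAddGroup.mk y : Γ ⧸ F)) hm ht hmt (by
      rintro x ⟨y, hy, rfl⟩
      rw [← map_nsmul]
      exact (QuotientAddGroup.eq_zero_iff _).2 (hmF y hy)) (by
      intro x _ y _ hxy
      rw [mk_eq_iff] at hxy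
      exact ⟨x - y, hxy, rfl⟩)
  set W := V.comap (QuotientAddGroup.mk' F') with hW
  have hFW : F' ≤ W := by
    intro x hx
    rw [hW, AddSubgroup.mem_comap]
    have h1 : QuotientAddGroup.mk' F' x = 0 := (QuotientAddGroup.eq_zero_iff x).2 hx
    rw [h1]
    exact V.zero_mem
  have hWF : W ≤ F := by
    intro x hx
    rw [hW, AddSubgroup.mem_comap] at hx
    obtain ⟨y, hy, hyx⟩ := hVN hx
    have h1 : (QuotientAddGroup.mk y : Γ ⧸ F') = QuotientAddGroup.mk x := hyx
    rw [mk_eq_iff] at h1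
    have h2 : x = y - (y - x) := by abel
    rw [h2]
    exact F.sub_mem hy (hF h1)
  have hmap : W.map (QuotientAddGroup.mk' F') = V := by
    rw [hW]
    exact AddSubgroup.map_comap_eq_self_of_surjective (QuotientAddGroup.mk'_surjective F') V
  have hcard : Nat.card V = F'.relIndex W := by
    rw [← card_map, hmap]
  refine ⟨W, hFW, hWF, ?_, ?_⟩
  · rw [← hcard]
    exact Nat.card_pos.ne'
  have hEV : ∀ S : Finset Γ, En S (fun y => (QuotientAddGroup.mk (QuotientAddGroup.mk y : Γ ⧸ F') :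
      (Γ ⧸ F') ⧸ V)) = Em S W := by
    intro S
    rw [← Em_map hFW]
    refine En_congr _ _ fun x _ y _ => ?_
    rw [mk_eq_iff, mk_eq_iff, hmap]
  simp only [hEV, hcard] at hV
  have c1 := Em_chain hA hWF
  have c2 := Em_chain hA hF
  have s1 := Es_step hA (fun y => y) (F := F) (F' := F') (L := F) hF (fun x _ y _ h => h)
  set Sw := ∑ x ∈ A, Em (cl A (fun y => (QuotientAddGroup.mk y : Γ ⧸ F)) x) W with hSw
  set Sf := ∑ x ∈ A, Em (cl A (fun y => (QuotientAddGroup.mk y : Γ ⧸ F)) x) F' with hSf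
  rw [sum_sub_distrib, sum_add_distrib, ← mul_sum, sum_const, nsmul_eq_mul] at hV
  have hV' : 2 * Sw + A.card * Real.log (F'.relIndex W) - Sf ≤ 184520 * t *
      ((∑ x ∈ A, ∑ y ∈ A, En (cl A (fun y => (QuotientAddGroup.mk y : Γ ⧸ F)) x ×ˢ
      cl A (fun y => (QuotientAddGroup.mk y : Γ ⧸ F)) y)
        (fun p => (QuotientAddGroup.mk (p.1 + p.2) : Γ ⧸ F'))) / A.card - Sf) := hV
  set X := ∑ x ∈ A, ∑ y ∈ A, En (cl A (fun y => (QuotientAddGroup.mk y : Γ ⧸ F)) x ×ˢ
      cl A (fun y => (QuotientAddGroup.mk y : Γ ⧸ F)) y)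
        (fun p => (QuotientAddGroup.mk (p.1 + p.2) : Γ ⧸ F')) with hX
  have h3 : (Em A W - Em A F) + (Real.log (F'.relIndex W) - (Em A F' - Em A W)) =
      (2 * Sw + A.card * Real.log (F'.relIndex W) - Sf) / A.card := by
    rw [c1, c2]
    field_simp
    ring
  have h4 : X / (A.card * A.card) - Sf / A.card ≤
      (Es A (fun y => y) F' - Em A F') - (Es A (fun y => y) F - Em A F) := by
    linarith
  rw [h3, div_le_iff₀ hA0]
  refine hV'.trans ?_
  have h5 : X / A.card - Sf = (X / (A.card * A.card) - Sf / A.card) * A.card := by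
    field_simp
  have h6 : (0 : ℝ) ≤ 184520 * t := by positivity
  calc 184520 * t * (X / A.card - Sf) ≤ 184520 * t *
        (((Es A (fun y => y) F' - Em A F') - (Es A (fun y => y) F - Em A F)) * A.card) := by
        rw [h5]
        exact mul_le_mul_of_nonneg_left (mul_le_mul_of_nonneg_right h4 hA0.le) h6
    _ = _ := by ring

/-- entropy of a set modulo `F'` is at most its entropy modulo `W` plus the index -/
theorem Em_le_add {S : Finset Γ} (hS : S.Nonempty) {F' W : AddSubgroup Γ} (h : F' ≤ W)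
    (hi : AddSubgroup.relIndex F' W ≠ 0) : Em S F' ≤ Em S W + Real.log (F'.relIndex W) := by
  have hcard : Nat.card (W.map (QuotientAddGroup.mk' F')) = F'.relIndex W := card_map
  have : Finite (W.map (QuotientAddGroup.mk' F')) :=
    Nat.finite_of_card_ne_zero (by rw [hcard]; exact hi)
  let _ : Fintype (W.map (QuotientAddGroup.mk' F')) := Fintype.ofFinite _
  have h1 := H_mul_UV hS (fun x => (QuotientAddGroup.mk x : Γ ⧸ F')) (W.map (QuotientAddGroup.mk' F'))
  have h2 := H_le_mul (law_PL hS (fun x => (QuotientAddGroup.mk x : Γ ⧸ F')))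
    (law_UV (W.map (QuotientAddGroup.mk' F')))
  rw [h1, Em_map h, hcard] at h2
  exact h2

end Pool.Agent.W5h6.Skel
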