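import Pool.Agent.H112R2.Conv
set_option autoImplicit false

/-! Entropies of functions of a uniformly distributed element of a finite set. -/

namespace Pool.Agent.W5h6.Skel

open Finset H112
open scoped Classical

variable {Ω Ω' α β γ δ : Type*}

/-- entropy of `f` under the uniform law on `S` -/
noncomputable def En (S : Finset Ω) (f : Ω → α) : ℝ := ent ((unif S).mapDomain f)

/-- the elements of `S` with the same value of `f` as `x` -/
noncomputable def cl (S : Finset Ω) (f : Ω → α) (x : Ω) : Finset Ω := S.filter fun y => f y = f x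

theorem mem_cl {S : Finset Ω} {f : Ω → α} {x y : Ω} : y ∈ cl S f x ↔ y ∈ S ∧ f y = f x := by
  unfold cl
  rw [mem_filter]

theorem self_mem_cl {S : Finset Ω} {f : Ω → α} {x : Ω} (hx : x ∈ S) : x ∈ cl S f x :=
  mem_cl.2 ⟨hx, rfl⟩

theorem cl_nonempty {S : Finset Ω} {f : Ω → α} {x : Ω} (hx : x ∈ S) : (cl S f x).Nonempty :=
  ⟨x, self_mem_cl hx⟩

theorem cl_subset (S : Finset Ω) (f : Ω → α) (x : Ω) : cl S f x ⊆ S := filter_subset _ _

theorem cl_eq {S : Finset Ω} {f : Ω → α} {x y : Ω} (h : f y = f x) : cl S f y = cl S f x := by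
  unfold cl
  rw [h]

theorem card_cl_pos {S : Finset Ω} {f : Ω → α} {x : Ω} (hx : x ∈ S) : (0 : ℝ) < (cl S f x).card := by
  exact_mod_cast (cl_nonempty hx).card_pos

theorem card_pos' {S : Finset Ω} (hS : S.Nonempty) : (0 : ℝ) < S.card := by
  exact_mod_cast hS.card_pos

theorem unif_apply (S : Finset Ω) (x : Ω) : unif S x = if x ∈ S then (S.card : ℝ)⁻¹ else 0 := rfl

theorem sum_unif_support (S : Finset Ω) (φ : Ω → ℝ) :
    ∑ x ∈ (unif S).support, unif S x * φ x = (∑ x ∈ S, φ x) / S.card := by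
  rw [Finset.sum_subset support_unif, Finset.sum_div]
  · refine Finset.sum_congr rfl fun x hx => ?_
    rw [unif_apply, if_pos hx]
    ring
  · intro x _ hx
    rw [Finsupp.notMem_support_iff.1 hx, zero_mul]

theorem unif_mapDomain (S : Finset Ω) (f : Ω → α) (x : Ω) :
    (unif S).mapDomain f (f x) = (cl S f x).card / S.card := by
  rw [shannon_mapDomain_apply]
  have h1 : ∀ y ∈ (unif S).support, (if f y = f x then unif S y else 0) =
      unif S y * (if f y = f x then 1 else 0) := by
    intro y _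
    split_ifs <;> simp
  rw [Finset.sum_congr rfl h1, sum_unif_support, Finset.sum_boole]
  rfl

/-- explicit formula -/
theorem En_eq {S : Finset Ω} (hS : S.Nonempty) (f : Ω → α) :
    En S f = (∑ x ∈ S, (Real.log S.card - Real.log (cl S f x).card)) / S.card := by
  unfold En
  rw [shannon_ent_mapDomain, sum_unif_support]
  congr 1
  refine Finset.sum_congr rfl fun x hx => ?_
  rw [unif_mapDomain, Real.log_div (card_cl_pos hx).ne' (card_pos' hS).ne']
  ring

theorem En_eq' {S : Finset Ω} (hS : S.Nonempty) (f : Ω → α) :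
    En S f * S.card = S.card * Real.log S.card - ∑ x ∈ S, Real.log (cl S f x).card := by
  rw [En_eq hS, div_mul_cancel₀ _ (card_pos' hS).ne', Finset.sum_sub_distrib, Finset.sum_const,
    nsmul_eq_mul]

theorem En_mono {S : Finset Ω} (f : Ω → α) (g : Ω → β)
    (h : ∀ x ∈ S, ∀ y ∈ S, g x = g y → f x = f y) : En S f ≤ En S g := by
  rcases S.eq_empty_or_nonempty with rfl | hS
  · unfold En
    have : unif (∅ : Finset Ω) = 0 := by
      ext x
      rw [unif_apply, if_neg (Finset.notMem_empty x)]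
      rfl
    rw [this, Finsupp.mapDomain_zero, Finsupp.mapDomain_zero]
    unfold ent
    simp
  rw [En_eq hS, En_eq hS]
  refine div_le_div_of_nonneg_right (Finset.sum_le_sum fun x hx => ?_) (card_pos' hS).le
  have h1 : (cl S g x).card ≤ (cl S f x).card := by
    refine Finset.card_le_card fun y hy => ?_
    rw [mem_cl] at hy ⊢
    exact ⟨hy.1, h y hy.1 x hx hy.2⟩
  have h2 := card_cl_pos (f := g) hx
  have h3 : Real.log (cl S g x).card ≤ Real.log (cl S f x).card :=
    Real.log_le_log h2 (by exact_mod_cast h1)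
  linarith

theorem En_congr {S : Finset Ω} (f : Ω → α) (g : Ω → β)
    (h : ∀ x ∈ S, ∀ y ∈ S, g x = g y ↔ f x = f y) : En S f = En S g :=
  le_antisymm (En_mono f g fun x hx y hy => (h x hx y hy).1)
    (En_mono g f fun x hx y hy => (h x hx y hy).2)

theorem En_nonneg {S : Finset Ω} (hS : S.Nonempty) (f : Ω → α) : 0 ≤ En S f :=
  ent_nonneg (isLaw_mapDomain (isLaw_unif hS) f)

/-- average over the classes -/
theorem sum_classes {S : Finset Ω} (g : Ω → β) (φ : Ω → ℝ) :
    ∑ x ∈ S, (∑ y ∈ cl S g x, φ y) / (cl S g x).card = ∑ y ∈ S, φ y := by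
  have h1 : ∀ x ∈ S, (∑ y ∈ cl S g x, φ y) / (cl S g x).card =
      ∑ y ∈ S, if g y = g x then φ y / (cl S g x).card else 0 := by
    intro x _
    rw [Finset.sum_div, cl, Finset.sum_filter]
  rw [Finset.sum_congr rfl h1, Finset.sum_comm]
  refine Finset.sum_congr rfl fun y hy => ?_
  have h2 : ∀ x ∈ S, (if g y = g x then φ y / ((cl S g x).card : ℝ) else 0) =
      if g x = g y then φ y / ((cl S g y).card : ℝ) else 0 := by
    intro x _
    by_cases h : g y = g x
    · rw [if_pos h, if_pos h.symm, cl_eq h]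
    · rw [if_neg h, if_neg (fun h' => h h'.symm)]
  rw [Finset.sum_congr rfl h2, ← Finset.sum_filter]
  change ∑ x ∈ cl S g y, φ y / ((cl S g y).card : ℝ) = φ y
  rw [Finset.sum_const, nsmul_eq_mul]
  have := (card_cl_pos (f := g) hy).ne'
  field_simp

/-- chain rule -/
theorem En_chain {S : Finset Ω} (hS : S.Nonempty) (f : Ω → α) (g : Ω → β) :
    En S (fun x => (f x, g x)) = En S g + (∑ x ∈ S, En (cl S g x) f) / S.card := by
  have hS0 := (card_pos' hS).ne'
  have h1 : ∀ x ∈ S, En (cl S g x) f = Real.log (cl S g x).card -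
      (∑ y ∈ cl S g x, Real.log (cl S (fun x => (f x, g x)) y).card) / (cl S g x).card := by
    intro x hx
    have hpos := (card_cl_pos (f := g) hx).ne'
    rw [En_eq (cl_nonempty hx), Finset.sum_sub_distrib, Finset.sum_const, nsmul_eq_mul, sub_div,
      mul_div_cancel_left₀ _ hpos]
    congr 2
    refine Finset.sum_congr rfl fun y hy => ?_
    congr 2
    refine congrArg Finset.card ?_
    ext z
    rw [mem_cl, mem_cl, mem_cl, Prod.mk.injEq, (mem_cl.1 hy).2]
    tauto
  rw [Finset.sum_congr rfl h1, Finset.sum_sub_distrib, sum_classes g]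
  rw [En_eq hS, En_eq hS, Finset.sum_sub_distrib, Finset.sum_sub_distrib]
  field_simp
  ring

theorem En_submod {S : Finset Ω} (hS : S.Nonempty) (f : Ω → α) (g : Ω → β) (h : Ω → γ) :
    En S (fun x => (f x, g x, h x)) + En S h ≤
      En S (fun x => (f x, h x)) + En S (fun x => (g x, h x)) :=
  ent_submod (isLaw_unif hS) f g h

/-- if `h` is a function of `f` and a function of `g`, then the entropy of `f` is at least the
entropy of `h` plus the mean entropy of `f` given `g` -/
theorem En_step {S : Finset Ω} (hS : S.Nonempty) (f : Ω → α) (g : Ω → β) (h : Ω → γ)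
    (h1 : ∀ x ∈ S, ∀ y ∈ S, f x = f y → h x = h y) (h2 : ∀ x ∈ S, ∀ y ∈ S, g x = g y → h x = h y) :
    En S h + (∑ x ∈ S, En (cl S g x) f) / S.card ≤ En S f := by
  have e := En_submod hS f g h
  have e1 : En S (fun x => (f x, g x, h x)) = En S (fun x => (f x, g x)) := by
    refine En_congr _ _ fun x hx y hy => ?_
    simp only [Prod.mk.injEq]
    exact ⟨fun a => ⟨a.1, a.2, h1 x hx y hy a.1⟩, fun a => ⟨a.1, a.2.1⟩⟩
  have e2 : En S (fun x => (f x, h x)) = En S f := by
    refine En_congr _ _ fun x hx y hy => ?_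
    simp only [Prod.mk.injEq]
    exact ⟨fun a => ⟨a, h1 x hx y hy a⟩, fun a => a.1⟩
  have e3 : En S (fun x => (g x, h x)) = En S g := by
    refine En_congr _ _ fun x hx y hy => ?_
    simp only [Prod.mk.injEq]
    exact ⟨fun a => ⟨a, h2 x hx y hy a⟩, fun a => a.1⟩
  rw [e1, e2, e3, En_chain hS] at e
  linarith

theorem unif_prod (S : Finset Ω) (T : Finset Ω') : prodLaw (unif S) (unif T) = unif (S ×ˢ T) := by
  ext ⟨x, y⟩
  rw [prodLaw_apply, unif_apply, unif_apply, unif_apply, Finset.card_product]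
  simp only [Finset.mem_product]
  by_cases hx : x ∈ S <;> by_cases hy : y ∈ T <;> simp [hx, hy, mul_comm]

theorem En_prod {S : Finset Ω} {T : Finset Ω'} (hS : S.Nonempty) (hT : T.Nonempty) (f : Ω → α)
    (g : Ω' → β) : En (S ×ˢ T) (fun p => (f p.1, g p.2)) = En S f + En T g := by
  unfold En
  rw [← ent_prodLaw (isLaw_mapDomain (isLaw_unif hS) f) (isLaw_mapDomain (isLaw_unif hT) g),
    ← Conv_mapDomain_prodLaw, unif_prod]
  rfl

theorem cl_prod (S : Finset Ω) (T : Finset Ω') (f : Ω → α) (g : Ω' → β) (x : Ω) (y : Ω') :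
    cl (S ×ˢ T) (fun p => (f p.1, g p.2)) (x, y) = cl S f x ×ˢ cl T g y := by
  ext ⟨a, b⟩
  simp only [mem_cl, Finset.mem_product, Prod.mk.injEq]
  tauto

theorem En_le_log_card {S : Finset Ω} (hS : S.Nonempty) (f : Ω → α) :
    En S f ≤ Real.log (S.image f).card := by
  refine ent_le_log_card (isLaw_mapDomain (isLaw_unif hS) f) ?_
  refine (Finsupp.mapDomain_support).trans ?_
  exact Finset.image_subset_image support_unif

theorem En_id {S : Finset Ω} (hS : S.Nonempty) (f : Ω → α) (hf : Set.InjOn f S) :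
    En S f = Real.log S.card := by
  unfold En
  rw [ent_mapDomain_of_injOn f (hf.mono (by exact_mod_cast support_unif)), ent_unif hS]

/-! ### laws on a group -/

variable {Q R : Type*} [AddCommGroup Q] [AddCommGroup R]

/-- the law of `π x`, `x` uniform on `S`, as an element of the group algebra -/
noncomputable def PL (S : Finset Ω) (π : Ω → Q) : AddMonoidAlgebra ℝ Q :=
  AddMonoidAlgebra.ofCoeff ((unif S).mapDomain π)

theorem law_PL {S : Finset Ω} (hS : S.Nonempty) (π : Ω → Q) : Law (PL S π) :=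
  isLaw_mapDomain (isLaw_unif hS) π

theorem H_PL (S : Finset Ω) (π : Ω → Q) : H (PL S π) = En S π := rfl

theorem PL_mul (S : Finset Ω) (T : Finset Ω') (π : Ω → Q) (ρ : Ω' → Q) :
    PL S π * PL T ρ = PL (S ×ˢ T) (fun p => π p.1 + ρ p.2) := by
  apply AddMonoidAlgebra.coeff_injective
  rw [coeff_mul]
  unfold PL
  simp only [AddMonoidAlgebra.coeff_ofCoeff]
  rw [← Conv_mapDomain_prodLaw, unif_prod, ← Finsupp.mapDomain_comp]
  rfl

end Pool.Agent.W5h6.Skel
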