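import Pool.Agent.W5h6.Skel.Main
set_option autoImplicit false

/-! The skeleton theorem for a general filtration. -/

namespace Pool.Agent.W5h6.Skel

open Finset H112
open scoped Classical Pointwise

variable {Γ : Type*} [AddCommGroup Γ]

/-- the number of classes of the elements of `B` modulo `G` -/
noncomputable def classes (G : AddSubgroup Γ) (B : Finset Γ) : ℕ :=
  (B.image fun x => (QuotientAddGroup.mk x : Γ ⧸ G)).card

theorem classes_pos {G : AddSubgroup Γ} {B : Finset Γ} (hB : B.Nonempty) : 0 < classes G B :=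
  (hB.image _).card_pos

theorem classes_le_card (G : AddSubgroup Γ) (B : Finset Γ) : classes G B ≤ B.card :=
  card_image_le

/-- the skeleton -/
theorem gen {m : ℕ} {F : ℕ → AddSubgroup Γ} (hF : Antitone F)
    (hmF : ∀ j, ∃ k : ℕ, 1 ≤ k ∧ k ≤ m ∧ ∀ x ∈ F j, k • x ∈ F (j + 1)) {K : ℝ} {A : Finset Γ}
    (hA : A.Nonempty) (hK : ((A + A).card : ℝ) ≤ K * A.card) :
    ∃ (W : ℕ → AddSubgroup Γ) (B : Finset Γ), B ⊆ A ∧ B.Nonempty ∧
      (A.card : ℝ) ≤ K ^ (184520 * (Nat.log 2 m + 1)) * B.card ∧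
      (∀ j, F (j + 1) ≤ W j ∧ W j ≤ F j ∧ (F (j + 1)).relIndex (W j) ≠ 0) ∧
      (∀ j, ∀ x ∈ B, ∀ y ∈ B, x - y ∈ F j → x - y ∈ W j) ∧
      (∀ J, ∏ j ∈ range J, ((F (j + 1)).relIndex (W j) : ℝ) ≤
        K ^ (369041 * (Nat.log 2 m + 1)) * classes (F J) B) ∧
      (∀ n : ℕ, (∀ j, ∀ x ∈ F j, n • x ∈ F (j + 1)) →
        (∀ j, (W (j + 1)).relIndex (W (j + 1) ⊔ (W j).map (nsmulAddMonoidHom n)) ≠ 0) ∧
        ∀ J, ∏ j ∈ range J,
          ((W (j + 1)).relIndex (W (j + 1) ⊔ (W j).map (nsmulAddMonoidHom n)) : ℝ) ≤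
          K ^ (369040 * (Nat.log 2 m + 1) + 39 * (Nat.log 2 n + 1))) := by
  set t := Nat.log 2 m + 1 with ht
  have hmt : m ≤ 2 ^ t := (Nat.lt_pow_succ_log_self (by norm_num) m).le
  have ht1 : 1 ≤ t := by omega
  have hK1 := one_le_K hA hK
  have hK0 : 0 < K := by linarith
  have hA0 := card_pos' hA
  obtain ⟨W, hW⟩ := exists_lev hA ht1 hmt hF hmF
  have hc : (0 : ℝ) ≤ 184520 * t := by positivity
  obtain ⟨B, hBA, hB1, hB2⟩ := exists_subset hW hA hF hc hK
  have hpow : ∀ e : ℕ, K ^ e = Real.exp (e * Real.log K) := by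
    intro e
    rw [mul_comm, Real.exp_mul, Real.exp_log hK0, Real.rpow_natCast]
  have hB1' : (A.card : ℝ) ≤ K ^ (184520 * t) * B.card := by
    rw [hpow]
    push_cast
    exact hB1
  have hBne : B.Nonempty := by
    rw [← Finset.card_pos]
    by_contra hcon
    have h0 : B.card = 0 := by omega
    rw [h0] at hB1'
    simp at hB1'
    rw [hB1'] at hA
    exact Finset.not_nonempty_empty hA
  refine ⟨W, B, hBA, hBne, hB1', fun j => ⟨hW.le1 j, hW.le2 j, hW.fin j⟩, hB2, ?_, ?_⟩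
  · intro J
    have h1 := hW.log_prod_le hA hc hK J
    have h2 := classes_le hA hK hBA (F J)
    have hr : ∀ j ∈ range J, ((F (j + 1)).relIndex (W j) : ℝ) ≠ 0 := fun j _ => by
      exact_mod_cast hW.fin j
    have hrpos : 0 < ∏ j ∈ range J, ((F (j + 1)).relIndex (W j) : ℝ) :=
      prod_pos fun j hj => lt_of_le_of_ne (Nat.cast_nonneg _) (hr j hj).symm
    rw [← Real.log_prod hr] at h1
    set I := (A.image fun y => (QuotientAddGroup.mk y : Γ ⧸ F J)).card with hI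
    have hIpos : (0 : ℝ) < I := by
      exact_mod_cast (hA.image _).card_pos
    have h3 : ∏ j ∈ range J, ((F (j + 1)).relIndex (W j) : ℝ) ≤ K ^ (184520 * t) * I := by
      have h4 := Real.exp_le_exp.2 h1
      rw [Real.exp_log hrpos, Real.exp_add, Real.exp_log hIpos] at h4
      rw [hpow]
      push_cast
      exact h4
    have h5 : (I : ℝ) * B.card ≤ K * A.card * classes (F J) B := by
      refine le_trans ?_ (le_trans h2 ?_)
      · exact le_rfl
      · unfold classes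
        convert le_rfl
    have hB0 := card_pos' hBne
    have h6 : (I : ℝ) ≤ K ^ (184520 * t + 1) * classes (F J) B := by
      have h7 : (I : ℝ) * B.card ≤ (K ^ (184520 * t + 1) * classes (F J) B) * B.card := by
        calc (I : ℝ) * B.card ≤ K * A.card * classes (F J) B := h5
          _ ≤ K * (K ^ (184520 * t) * B.card) * classes (F J) B := by gcongr
          _ = _ := by ring
      exact le_of_mul_le_mul_right h7 hB0
    calc _ ≤ K ^ (184520 * t) * (I : ℝ) := h3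
      _ ≤ K ^ (184520 * t) * (K ^ (184520 * t + 1) * classes (F J) B) := by gcongr
      _ = K ^ (184520 * t + (184520 * t + 1)) * classes (F J) B := by ring
      _ ≤ K ^ (369041 * t) * classes (F J) B := by
        gcongr
        omega
  · intro n hn
    have hlev := fun j => mul_level hA hW hF hn j
    refine ⟨fun j => (hlev j).1, fun J => ?_⟩
    have h1 := mul_sum_le hA hW hF hn hc hK J
    have h2 := dilate_le hA hK (m := n) (t := Nat.log 2 n + 1)
      (Nat.lt_pow_succ_log_self (by norm_num) n)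
    have hr : ∀ j ∈ range J, ((W (j + 1)).relIndex (W (j + 1) ⊔ (W j).map (nsmulAddMonoidHom n)) : ℝ) ≠ 0 :=
      fun j _ => by exact_mod_cast (hlev j).1
    have hrpos : 0 < ∏ j ∈ range J,
        ((W (j + 1)).relIndex (W (j + 1) ⊔ (W j).map (nsmulAddMonoidHom n)) : ℝ) :=
      prod_pos fun j hj => lt_of_le_of_ne (Nat.cast_nonneg _) (hr j hj).symm
    rw [← Real.log_prod hr] at h1
    rw [hpow, ← Real.exp_log hrpos]
    refine Real.exp_le_exp.2 ?_
    push_cast at h2 ⊢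
    have hl := Real.log_nonneg hK1
    have hn0 : (0 : ℝ) ≤ (Nat.log 2 n : ℝ) := Nat.cast_nonneg _
    have hte : ((Nat.log 2 m : ℝ) + 1) = t := by rw [ht]; push_cast; ring
    have h3 : (30 * ((Nat.log 2 n : ℝ) + 1) + 9) * Real.log K ≤
        39 * ((Nat.log 2 n : ℝ) + 1) * Real.log K := by
      refine mul_le_mul_of_nonneg_right ?_ hl
      linarith
    calc _ ≤ _ := h1
      _ ≤ 39 * ((Nat.log 2 n : ℝ) + 1) * Real.log K + 2 * (184520 * t * Real.log K) := by linarith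
      _ = _ := by ring

theorem one_le_K' [DecidableEq Γ] {K : ℝ} {A : Finset Γ} (hA : A.Nonempty)
    (hK : ((A + A).card : ℝ) ≤ K * A.card) : 1 ≤ K := by
  have h1 : (A.card : ℝ) ≤ (A + A).card := by
    exact_mod_cast Finset.card_le_card_add_right hA
  have := card_pos' hA
  nlinarith

theorem gen_dec [d : DecidableEq Γ] {m : ℕ} {F : ℕ → AddSubgroup Γ} (hF : Antitone F)
    (hmF : ∀ j, ∃ k : ℕ, 1 ≤ k ∧ k ≤ m ∧ ∀ x ∈ F j, k • x ∈ F (j + 1)) {K : ℝ} {A : Finset Γ}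
    (hA : A.Nonempty) (hK : ((A + A).card : ℝ) ≤ K * A.card) :
    ∃ (W : ℕ → AddSubgroup Γ) (B : Finset Γ), B ⊆ A ∧ B.Nonempty ∧
      (A.card : ℝ) ≤ K ^ (184520 * (Nat.log 2 m + 1)) * B.card ∧
      (∀ j, F (j + 1) ≤ W j ∧ W j ≤ F j ∧ (F (j + 1)).relIndex (W j) ≠ 0) ∧
      (∀ j, ∀ x ∈ B, ∀ y ∈ B, x - y ∈ F j → x - y ∈ W j) ∧
      (∀ J, ∏ j ∈ range J, ((F (j + 1)).relIndex (W j) : ℝ) ≤
        K ^ (369041 * (Nat.log 2 m + 1)) * classes (F J) B) ∧
      (∀ n : ℕ, (∀ j, ∀ x ∈ F j, n • x ∈ F (j + 1)) →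
        (∀ j, (W (j + 1)).relIndex (W (j + 1) ⊔ (W j).map (nsmulAddMonoidHom n)) ≠ 0) ∧
        ∀ J, ∏ j ∈ range J,
          ((W (j + 1)).relIndex (W (j + 1) ⊔ (W j).map (nsmulAddMonoidHom n)) : ℝ) ≤
          K ^ (369040 * (Nat.log 2 m + 1) + 39 * (Nat.log 2 n + 1))) := by
  have hd : d = (fun a b => Classical.propDecidable (a = b)) := Subsingleton.elim _ _
  subst hd
  exact gen hF hmF hA hK

/-- the converse comparison when the multiplication by `n` is injective on the layers -/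
theorem layers {F W : ℕ → AddSubgroup Γ} {n : ℕ}
    (hFW : ∀ j, F (j + 1) ≤ W j ∧ W j ≤ F j ∧ (F (j + 1)).relIndex (W j) ≠ 0)
    (hn : ∀ j, ∀ x ∈ F j, n • x ∈ F (j + 1))
    (hinj : ∀ j, ∀ x ∈ F j, n • x ∈ F (j + 2) → x ∈ F (j + 1)) (j : ℕ) :
    (F (j + 2)).relIndex (W (j + 1)) *
      (W (j + 1)).relIndex (W (j + 1) ⊔ (W j).map (nsmulAddMonoidHom n)) =
    (F (j + 1)).relIndex (W j) *
      (F (j + 2) ⊔ (W j).map (nsmulAddMonoidHom n)).relIndex
        (W (j + 1) ⊔ (W j).map (nsmulAddMonoidHom n)) := by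
  have hmul : (F (j + 2)).relIndex (W (j + 1)) *
      (W (j + 1)).relIndex (W (j + 1) ⊔ (W j).map (nsmulAddMonoidHom n)) =
      (F (j + 2)).relIndex (W (j + 1) ⊔ (W j).map (nsmulAddMonoidHom n)) :=
    AddSubgroup.relIndex_mul_relIndex _ _ _ (hFW (j + 1)).1 le_sup_left
  have hmul2 : (F (j + 2)).relIndex (F (j + 2) ⊔ (W j).map (nsmulAddMonoidHom n)) *
      (F (j + 2) ⊔ (W j).map (nsmulAddMonoidHom n)).relIndex
        (W (j + 1) ⊔ (W j).map (nsmulAddMonoidHom n)) =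
      (F (j + 2)).relIndex (W (j + 1) ⊔ (W j).map (nsmulAddMonoidHom n)) :=
    AddSubgroup.relIndex_mul_relIndex _ _ _ le_sup_left
      (sup_le_sup_right (hFW (j + 1)).1 _)
  rw [hmul, ← hmul2]
  congr 1
  rw [AddSubgroup.relIndex_sup_left, ← AddSubgroup.relIndex_comap]
  -- `F (j + 2)` pulled back by the multiplication by `n` meets `W j` in `F (j + 1)`
  have h1 : ((F (j + 2)).comap (nsmulAddMonoidHom n)) ⊓ W j = F (j + 1) := by
    ext x
    rw [AddSubgroup.mem_inf, AddSubgroup.mem_comap]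
    constructor
    · rintro ⟨h2, h3⟩
      exact hinj j x ((hFW j).2.1 h3) h2
    · intro h2
      exact ⟨hn (j + 1) x h2, (hFW j).1 h2⟩
  rw [← AddSubgroup.inf_relIndex_right, h1]

/-- consequences: all indices are bounded, and the layers change rarely, in both directions -/
theorem layers_bound {F W : ℕ → AddSubgroup Γ} {n : ℕ} {K : ℝ} (hK1 : 1 ≤ K) {a b N : ℕ}
    (hFW : ∀ j, F (j + 1) ≤ W j ∧ W j ≤ F j ∧ (F (j + 1)).relIndex (W j) ≠ 0)
    (hn : ∀ j, ∀ x ∈ F j, n • x ∈ F (j + 1))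
    (hinj : ∀ j, ∀ x ∈ F j, n • x ∈ F (j + 2) → x ∈ F (j + 1))
    (hr : ∀ J, ∏ j ∈ range J, ((F (j + 1)).relIndex (W j) : ℝ) ≤ K ^ a * N)
    (hu0 : ∀ j, (W (j + 1)).relIndex (W (j + 1) ⊔ (W j).map (nsmulAddMonoidHom n)) ≠ 0)
    (hu : ∀ J, ∏ j ∈ range J,
      ((W (j + 1)).relIndex (W (j + 1) ⊔ (W j).map (nsmulAddMonoidHom n)) : ℝ) ≤ K ^ b) :
    (∀ j, ((F (j + 1)).relIndex (W j) : ℝ) ≤ K ^ b) ∧
    ∀ J, ∏ j ∈ range J, ((F (j + 2) ⊔ (W j).map (nsmulAddMonoidHom n)).relIndex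
        (W (j + 1) ⊔ (W j).map (nsmulAddMonoidHom n)) : ℝ) ≤ K ^ (2 * b) := by
  set r : ℕ → ℝ := fun j => ((F (j + 1)).relIndex (W j) : ℝ) with hrdef
  set u : ℕ → ℝ := fun j =>
    ((W (j + 1)).relIndex (W (j + 1) ⊔ (W j).map (nsmulAddMonoidHom n)) : ℝ) with hudef
  set v : ℕ → ℝ := fun j => ((F (j + 2) ⊔ (W j).map (nsmulAddMonoidHom n)).relIndex
        (W (j + 1) ⊔ (W j).map (nsmulAddMonoidHom n)) : ℝ) with hvdef
  have hr1 : ∀ j, 1 ≤ r j := fun j => by
    simp only [hrdef]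
    exact_mod_cast Nat.one_le_iff_ne_zero.2 (hFW j).2.2
  have hu1 : ∀ j, 1 ≤ u j := fun j => by
    simp only [hudef]
    exact_mod_cast Nat.one_le_iff_ne_zero.2 (hu0 j)
  have hK0 : 0 < K := by linarith
  have key : ∀ j, r (j + 1) * u j = r j * v j := fun j => by
    simp only [hrdef, hudef, hvdef]
    exact_mod_cast layers hFW hn hinj j
  have hv1 : ∀ j, 1 ≤ v j := fun j => by
    have h1 : v j ≠ 0 := by
      intro h0
      have h2 := key j
      rw [h0, mul_zero] at h2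
      have h3 : 0 < r (j + 1) * u j :=
        mul_pos (lt_of_lt_of_le one_pos (hr1 _)) (lt_of_lt_of_le one_pos (hu1 _))
      linarith
    simp only [hvdef] at h1 ⊢
    have h2 : (F (j + 2) ⊔ (W j).map (nsmulAddMonoidHom n)).relIndex
        (W (j + 1) ⊔ (W j).map (nsmulAddMonoidHom n)) ≠ 0 := by exact_mod_cast h1
    exact_mod_cast Nat.one_le_iff_ne_zero.2 h2
  -- some later index is one
  have hone : ∀ j, ∃ i, j ≤ i ∧ r i = 1 := by
    intro j
    by_contra hcon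
    push Not at hcon
    have h2 : ∀ i, j ≤ i → 2 ≤ r i := by
      intro i hi
      have h3 := hcon i hi
      have h4 := hr1 i
      simp only [hrdef] at h3 h4 ⊢
      have h5 : (F (i + 1)).relIndex (W i) ≠ 1 := by exact_mod_cast h3
      have h6 : 1 ≤ (F (i + 1)).relIndex (W i) := by exact_mod_cast h4
      exact_mod_cast (by omega : 2 ≤ (F (i + 1)).relIndex (W i))
    obtain ⟨e, he⟩ := pow_unbounded_of_one_lt (K ^ a * N) (by norm_num : (1 : ℝ) < 2)
    have h3 := hr (j + e)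
    rw [prod_range_add] at h3
    have h4 : (1 : ℝ) ≤ ∏ i ∈ range j, r i := by
      calc (1 : ℝ) = ∏ i ∈ range j, (1 : ℝ) := by rw [prod_const_one]
        _ ≤ _ := prod_le_prod (fun _ _ => zero_le_one) fun i _ => hr1 i
    have h5 : (2 : ℝ) ^ e ≤ ∏ i ∈ range e, r (j + i) := by
      calc (2 : ℝ) ^ e = ∏ i ∈ range e, (2 : ℝ) := by rw [prod_const, card_range]
        _ ≤ _ := prod_le_prod (fun _ _ => by norm_num) fun i _ => h2 _ (by omega)
    have h6 : (2 : ℝ) ^ e ≤ (∏ i ∈ range j, r i) * ∏ i ∈ range e, r (j + i) := by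
      have h7 : (0 : ℝ) ≤ 2 ^ e := by positivity
      nlinarith
    simp only [hrdef] at h6
    linarith
  -- telescoping
  have htel : ∀ J, r J * ∏ j ∈ range J, u j = r 0 * ∏ j ∈ range J, v j := by
    intro J
    induction J with
    | zero => simp
    | succ J ih =>
      rw [prod_range_succ, prod_range_succ]
      calc r (J + 1) * ((∏ j ∈ range J, u j) * u J) = (r (J + 1) * u J) * ∏ j ∈ range J, u j := by ring
        _ = (r J * v J) * ∏ j ∈ range J, u j := by rw [key]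
        _ = (r J * ∏ j ∈ range J, u j) * v J := by ring
        _ = _ := by rw [ih]; ring
  have hmono : ∀ j e, r j * ∏ i ∈ range j, u i ≤ r (j + e) * ∏ i ∈ range (j + e), u i := by
    intro j e
    rw [htel, htel, prod_range_add]
    have h1 : (1 : ℝ) ≤ ∏ i ∈ range e, v (j + i) := by
      calc (1 : ℝ) = ∏ i ∈ range e, (1 : ℝ) := by rw [prod_const_one]
        _ ≤ _ := prod_le_prod (fun _ _ => zero_le_one) fun i _ => hv1 _
    have h2 : 0 ≤ r 0 * ∏ i ∈ range j, v i :=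
      mul_nonneg (by linarith [hr1 0]) (prod_nonneg fun i _ => by linarith [hv1 i])
    nlinarith
  have hub : ∀ J, 1 ≤ ∏ j ∈ range J, u j := by
    intro J
    calc (1 : ℝ) = ∏ i ∈ range J, (1 : ℝ) := by rw [prod_const_one]
      _ ≤ _ := prod_le_prod (fun _ _ => zero_le_one) fun i _ => hu1 _
  have hrb : ∀ j, r j ≤ K ^ b := by
    intro j
    obtain ⟨i, hji, hi⟩ := hone j
    obtain ⟨e, rfl⟩ := Nat.exists_eq_add_of_le hji
    have h1 := hmono j e
    rw [hi, one_mul] at h1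
    have h2 : r j ≤ r j * ∏ i ∈ range j, u i := by
      have := hub j
      have := hr1 j
      nlinarith
    exact h2.trans (h1.trans (hu _))
  refine ⟨hrb, fun J => ?_⟩
  have h1 := htel J
  have h2 : ∏ j ∈ range J, v j ≤ r 0 * ∏ j ∈ range J, v j := by
    have h3 : 0 ≤ ∏ j ∈ range J, v j := prod_nonneg fun i _ => by linarith [hv1 i]
    have := hr1 0
    nlinarith
  rw [← h1] at h2
  refine h2.trans ?_
  calc r J * ∏ j ∈ range J, u j ≤ K ^ b * K ^ b :=
        mul_le_mul (hrb J) (hu J) (by linarith [hub J]) (by positivity)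
    _ = _ := by rw [← pow_add]; congr 1; ring

end Pool.Agent.W5h6.Skel
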