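import Pool.Agent.W5h6.Skel.Gen
set_option autoImplicit false

/-! Sets of integers and their digits in base `p`. -/

namespace Pool.Agent.W5h6.Skel

open Finset H112
open scoped Classical Pointwise

/-- the multiples of `p ^ j` -/
def Fp (p : ℕ) (j : ℕ) : AddSubgroup ℤ := AddSubgroup.zmultiples ((p : ℤ) ^ j)

theorem mem_Fp {p j : ℕ} {x : ℤ} : x ∈ Fp p j ↔ (p : ℤ) ^ j ∣ x := by
  unfold Fp
  exact Int.mem_zmultiples_iff

theorem Fp_anti (p : ℕ) : Antitone (Fp p) := by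
  intro i j hij x hx
  rw [mem_Fp] at hx ⊢
  exact (pow_dvd_pow _ hij).trans hx

theorem Fp_smul (p : ℕ) (j : ℕ) (x : ℤ) (hx : x ∈ Fp p j) : p • x ∈ Fp p (j + 1) := by
  rw [mem_Fp] at hx ⊢
  rw [nsmul_eq_mul, pow_succ, mul_comm]
  exact mul_dvd_mul_left _ hx

theorem Fp_inj {p : ℕ} (hp : p.Prime) (j : ℕ) (x : ℤ) (hx : p • x ∈ Fp p (j + 2)) :
    x ∈ Fp p (j + 1) := by
  rw [mem_Fp] at hx ⊢
  rw [nsmul_eq_mul, show (p : ℤ) ^ (j + 2) = p * p ^ (j + 1) by ring] at hx
  have hp0 : (p : ℤ) ≠ 0 := by exact_mod_cast hp.ne_zero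
  exact (mul_dvd_mul_iff_left hp0).1 hx

/-- there is nothing between two layers -/
theorem eq_or_eq {p : ℕ} (hp : p.Prime) {j : ℕ} {W : AddSubgroup ℤ} (h1 : Fp p (j + 1) ≤ W)
    (h2 : W ≤ Fp p j) : W = Fp p j ∨ W = Fp p (j + 1) := by
  by_cases h : W ≤ Fp p (j + 1)
  · exact Or.inr (le_antisymm h h1)
  · left
    refine le_antisymm h2 ?_
    obtain ⟨x, hx, hx'⟩ := SetLike.not_le_iff_exists.1 h
    obtain ⟨u, hu⟩ := mem_Fp.1 (h2 hx)
    have hpu : IsCoprime (p : ℤ) u := by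
      rw [Int.isCoprime_iff_gcd_eq_one]
      have hpr : Prime (p : ℤ) := Nat.prime_iff_prime_int.1 hp
      have h3 : ¬ (p : ℤ) ∣ u := by
        rintro ⟨w, hw⟩
        apply hx'
        rw [mem_Fp, hu, hw]
        exact ⟨w, by ring⟩
      exact Int.isCoprime_iff_gcd_eq_one.1 ((Prime.coprime_iff_not_dvd hpr).2 h3)
    obtain ⟨a, b, hab⟩ := hpu
    have h5 : (p : ℤ) ^ j ∈ W := by
      have h6 : (p : ℤ) ^ j = a * ((p : ℤ) ^ (j + 1)) + b * x := by
        rw [hu]
        calc (p : ℤ) ^ j = (a * p + b * u) * (p : ℤ) ^ j := by rw [hab, one_mul]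
          _ = _ := by ring
      rw [h6]
      refine W.add_mem ?_ ?_
      · have := W.zsmul_mem (h1 (mem_Fp.2 (dvd_refl ((p : ℤ) ^ (j + 1))))) a
        simpa using this
      · have := W.zsmul_mem hx b
        simpa using this
    intro y hy
    obtain ⟨c, hc⟩ := mem_Fp.1 hy
    rw [hc]
    have := W.zsmul_mem h5 c
    rw [mul_comm]
    simpa using this

theorem relIndex_Fp {p : ℕ} (hp : p.Prime) (j : ℕ) : (Fp p (j + 1)).relIndex (Fp p j) = p := by
  have h1 := AddSubgroup.relIndex_mul_index (Fp_anti p (Nat.le_succ j))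
  have h2 : ∀ i, (Fp p i).index = p ^ i := by
    intro i
    unfold Fp
    rw [Int.index_zmultiples, Int.natAbs_pow, Int.natAbs_natCast]
  rw [h2, h2, Nat.succ_eq_add_one, pow_succ' p j] at h1
  exact Nat.eq_of_mul_eq_mul_right (pow_pos hp.pos j) h1

theorem Fp_map (p : ℕ) (j : ℕ) : (Fp p j).map (nsmulAddMonoidHom p) = Fp p (j + 1) := by
  ext x
  rw [AddSubgroup.mem_map, mem_Fp]
  constructor
  · rintro ⟨y, hy, rfl⟩
    exact mem_Fp.1 (Fp_smul p j y hy)
  · rintro ⟨c, rfl⟩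
    refine ⟨(p : ℤ) ^ j * c, mem_Fp.2 (dvd_mul_right _ _), ?_⟩
    rw [nsmulAddMonoidHom_apply, nsmul_eq_mul]
    ring

theorem classes_Fp (p J : ℕ) (B : Finset ℤ) :
    classes (Fp p J) B = (B.image (Int.cast : ℤ → ZMod (p ^ J))).card := by
  unfold classes
  have key : ∀ x y : ℤ, (QuotientAddGroup.mk x : ℤ ⧸ Fp p J) = QuotientAddGroup.mk y ↔
      (x : ZMod (p ^ J)) = (y : ZMod (p ^ J)) := by
    intro x y
    rw [mk_eq_iff, mem_Fp, eq_comm, ZMod.intCast_eq_intCast_iff_dvd_sub]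
    push_cast
    rfl
  refine Finset.card_bij (fun q _ => ((Quotient.out q : ℤ) : ZMod (p ^ J))) ?_ ?_ ?_
  · intro q hq
    obtain ⟨x, hx, rfl⟩ := mem_image.1 hq
    rw [mem_image]
    refine ⟨x, hx, ?_⟩
    rw [← key]
    exact (QuotientAddGroup.out_eq' _).symm
  · intro q _ q' _ h
    rw [← key] at h
    have h1 : (QuotientAddGroup.mk (Quotient.out q) : ℤ ⧸ Fp p J) = q := QuotientAddGroup.out_eq' _
    have h2 : (QuotientAddGroup.mk (Quotient.out q') : ℤ ⧸ Fp p J) = q' := QuotientAddGroup.out_eq' _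
    rw [← h1, ← h2, h]
  · intro z hz
    obtain ⟨x, hx, rfl⟩ := mem_image.1 hz
    refine ⟨QuotientAddGroup.mk x, mem_image_of_mem _ hx, ?_⟩
    rw [← key]
    exact QuotientAddGroup.out_eq' _

/-- the skeleton of a set of integers -/
theorem ints {p : ℕ} (hp : p.Prime) {K : ℝ} {A : Finset ℤ} (hA : A.Nonempty)
    (hK : ((A + A).card : ℝ) ≤ K * A.card) :
    ∃ (D : Set ℕ) (B : Finset ℤ), B ⊆ A ∧
      (A.card : ℝ) ≤ K ^ (1200000 * (Nat.log 2 p + 1)) * B.card ∧
      (∀ j, j ∉ D → ∀ x ∈ B, ∀ y ∈ B, (p : ℤ) ^ j ∣ x - y → (p : ℤ) ^ (j + 1) ∣ x - y) ∧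
      (∀ J : ℕ, (p : ℝ) ^ ((range J).filter fun j => j ∈ D).card ≤
        K ^ (1200000 * (Nat.log 2 p + 1)) * (B.image (Int.cast : ℤ → ZMod (p ^ J))).card) ∧
      (∀ J : ℕ, (p : ℝ) ^ ((range J).filter fun j => ¬ (j ∈ D ↔ j + 1 ∈ D)).card ≤
        K ^ (1200000 * (Nat.log 2 p + 1))) := by
  have hK1 := one_le_K' hA hK
  have hp1 : (1 : ℝ) ≤ p := by exact_mod_cast hp.one_lt.le
  obtain ⟨W, B, hBA, hBne, h1, h2, h3, h4, h5⟩ := gen_dec (m := p) (F := Fp p) (Fp_anti p)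
    (fun j => ⟨p, hp.one_lt.le, le_rfl, fun x hx => Fp_smul p j x hx⟩) hA hK
  set t := Nat.log 2 p + 1 with ht
  obtain ⟨h6, h7⟩ := h5 p (fun j x hx => Fp_smul p j x hx)
  have hb : ∀ J, ∏ j ∈ range J,
      ((W (j + 1)).relIndex (W (j + 1) ⊔ (W j).map (nsmulAddMonoidHom p)) : ℝ) ≤ K ^ (369079 * t) := by
    intro J
    refine (h7 J).trans (le_of_eq ?_)
    congr 1
    ring
  obtain ⟨-, h9⟩ := layers_bound (F := Fp p) (W := W) (n := p) (K := K) hK1 (a := 369041 * t)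
    (b := 369079 * t) (N := B.card) h2 (fun j x hx => Fp_smul p j x hx)
    (fun j x _ hx => Fp_inj hp j x hx) (fun J => (h4 J).trans (by
      refine mul_le_mul_of_nonneg_left ?_ (by positivity)
      exact_mod_cast classes_le_card _ _)) h6 hb
  have heq : ∀ j, W j = Fp p j ∨ W j = Fp p (j + 1) := fun j => eq_or_eq hp (h2 j).1 (h2 j).2.1
  have hne : ∀ j, Fp p j ≠ Fp p (j + 1) := by
    intro j h
    have h10 := relIndex_Fp hp j
    rw [h, AddSubgroup.relIndex_self] at h10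
    exact hp.one_lt.ne h10
  let D : Set ℕ := {j | W j = Fp p j}
  have hnot : ∀ j, j ∉ D → W j = Fp p (j + 1) := fun j hj => (heq j).resolve_left hj
  have hone : ∀ (r : ℕ → ℝ), (∀ j, 1 ≤ r j) → ∀ (P : ℕ → Prop) [DecidablePred P],
      (∀ j, P j → r j = p) → ∀ J,
      (p : ℝ) ^ ((range J).filter P).card ≤ ∏ j ∈ range J, r j := by
    intro r hr P _ hP J
    rw [← prod_filter_mul_prod_filter_not (range J) P]
    have e1 : ∏ j ∈ (range J).filter P, r j = (p : ℝ) ^ ((range J).filter P).card := by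
      rw [prod_congr rfl fun j hj => hP j (mem_filter.1 hj).2, prod_const]
    have e2 : (1 : ℝ) ≤ ∏ j ∈ (range J).filter (fun j => ¬ P j), r j := by
      calc (1 : ℝ) = ∏ j ∈ (range J).filter (fun j => ¬ P j), (1 : ℝ) := by rw [prod_const_one]
        _ ≤ _ := prod_le_prod (fun _ _ => zero_le_one) fun i _ => hr i
    rw [e1]
    exact le_mul_of_one_le_right (by positivity) e2
  refine ⟨D, B, hBA, ?_, ?_, ?_, ?_⟩
  · refine h1.trans ?_
    gcongr
    norm_num
  · intro j hj x hx y hy hxy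
    have h10 := h3 j x hx y hy (mem_Fp.2 hxy)
    rw [hnot j hj] at h10
    exact mem_Fp.1 h10
  · intro J
    rw [← classes_Fp]
    refine le_trans ?_ ((h4 J).trans ?_)
    · refine hone (fun j => ((Fp p (j + 1)).relIndex (W j) : ℝ)) (fun j => ?_) (fun j => j ∈ D) ?_ J
      · exact_mod_cast Nat.one_le_iff_ne_zero.2 (h2 j).2.2
      · intro j hj
        have : W j = Fp p j := hj
        rw [this, relIndex_Fp hp]
    · gcongr
      norm_num
  · intro J
    -- leaving and entering `D`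
    have e1 : (p : ℝ) ^ ((range J).filter fun j => j ∈ D ∧ j + 1 ∉ D).card ≤ K ^ (369079 * t) := by
      refine le_trans ?_ (hb J)
      refine hone (fun j => ((W (j + 1)).relIndex (W (j + 1) ⊔ (W j).map (nsmulAddMonoidHom p)) : ℝ))
        (fun j => ?_) (fun j => j ∈ D ∧ j + 1 ∉ D) ?_ J
      · exact_mod_cast Nat.one_le_iff_ne_zero.2 (h6 j)
      · rintro j ⟨hj, hj'⟩
        have g1 : W j = Fp p j := hj
        have g2 : W (j + 1) = Fp p (j + 2) := hnot _ hj'
        rw [g1, g2, Fp_map, sup_eq_right.2 (Fp_anti p (Nat.le_succ (j + 1))), relIndex_Fp hp]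
    have e2 : (p : ℝ) ^ ((range J).filter fun j => j ∉ D ∧ j + 1 ∈ D).card ≤
        K ^ (2 * (369079 * t)) := by
      refine le_trans ?_ (h9 J)
      refine hone (fun j => ((Fp p (j + 2) ⊔ (W j).map (nsmulAddMonoidHom p)).relIndex
        (W (j + 1) ⊔ (W j).map (nsmulAddMonoidHom p)) : ℝ)) (fun j => ?_)
        (fun j => j ∉ D ∧ j + 1 ∈ D) ?_ J
      · have g3 : (Fp p (j + 2) ⊔ (W j).map (nsmulAddMonoidHom p)).relIndex
            (W (j + 1) ⊔ (W j).map (nsmulAddMonoidHom p)) ≠ 0 := by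
          intro h0
          have g4 := layers (F := Fp p) (W := W) (n := p) h2 (fun j x hx => Fp_smul p j x hx)
            (fun j x _ hx => Fp_inj hp j x hx) j
          rw [h0, mul_zero] at g4
          rcases Nat.mul_eq_zero.1 g4 with g5 | g5
          · exact (h2 (j + 1)).2.2 g5
          · exact h6 j g5
        exact_mod_cast Nat.one_le_iff_ne_zero.2 g3
      · rintro j ⟨hj, hj'⟩
        have g1 : W j = Fp p (j + 1) := hnot _ hj
        have g2 : W (j + 1) = Fp p (j + 1) := hj'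
        rw [g1, g2, Fp_map, sup_idem, sup_eq_left.2 (Fp_anti p (Nat.le_succ (j + 1))), relIndex_Fp hp]
    have e3 : ((range J).filter fun j => ¬ (j ∈ D ↔ j + 1 ∈ D)).card =
        ((range J).filter fun j => j ∈ D ∧ j + 1 ∉ D).card +
        ((range J).filter fun j => j ∉ D ∧ j + 1 ∈ D).card := by
      rw [← card_union_of_disjoint]
      · congr 1
        ext j
        simp only [mem_filter, mem_union]
        tauto
      · rw [Finset.disjoint_left]
        intro j hj hj'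
        rw [mem_filter] at hj hj'
        exact hj'.2.1 hj.2.1
    rw [e3, pow_add]
    calc _ ≤ K ^ (369079 * t) * K ^ (2 * (369079 * t)) :=
          mul_le_mul e1 e2 (by positivity) (by positivity)
      _ = K ^ (369079 * t + 2 * (369079 * t)) := by rw [pow_add]
      _ ≤ _ := by
        gcongr
        omega

end Pool.Agent.W5h6.Skel
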