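import Pool.Agent.W5h6.Skel.Asm
import Pool.Agent.W5h6.LocalDil.Digit
set_option autoImplicit false

/-! The skeleton of a set of small doubling with respect to a filtration. -/

namespace Pool.Agent.W5h6.Skel

open Finset H112
open scoped Classical Pointwise

variable {Γ : Type*} [AddCommGroup Γ]

theorem one_le_K {K : ℝ} {A : Finset Γ} (hA : A.Nonempty)
    (hK : ((A + A).card : ℝ) ≤ K * A.card) : 1 ≤ K := by
  have h1 : (A.card : ℝ) ≤ (A + A).card := by
    exact_mod_cast Finset.card_le_card_add_right hA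
  have := card_pos' hA
  nlinarith

theorem image_add_id (A : Finset Γ) : ((A ×ˢ A).image fun p => p.1 + p.2) = A + A := by
  ext x
  rw [mem_image, Finset.mem_add]
  constructor
  · rintro ⟨⟨a, b⟩, h, rfl⟩
    rw [mem_product] at h
    exact ⟨a, h.1, b, h.2, rfl⟩
  · rintro ⟨a, ha, b, hb, rfl⟩
    exact ⟨(a, b), mem_product.2 ⟨ha, hb⟩, rfl⟩

/-- the doubling of `A` modulo `G`, entropic version -/
noncomputable def Dl (A : Finset Γ) (G : AddSubgroup Γ) : ℝ := Es A (fun y => y) G - Em A G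

theorem Dl_nonneg {A : Finset Γ} (hA : A.Nonempty) (G : AddSubgroup Γ) : 0 ≤ Dl A G :=
  sub_nonneg.2 (Em_le_Es hA _ G)

theorem Dl_le {K : ℝ} {A : Finset Γ} (hA : A.Nonempty) (hK : ((A + A).card : ℝ) ≤ K * A.card)
    (G : AddSubgroup Γ) : Dl A G ≤ Real.log K := by
  have h := Es_le hA (fun y => y) G
  rw [image_add_id] at h
  have hA0 := card_pos' hA
  have hK1 := one_le_K hA hK
  have h1 : Real.log (A + A).card ≤ Real.log K + Real.log A.card := by
    rw [← Real.log_mul (by positivity) hA0.ne']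
    exact Real.log_le_log (card_pos' (hA.add hA)) hK
  unfold Dl
  linarith

/-- the errors `a_j + b_j` of the levels -/
structure Lev (A : Finset Γ) (F W : ℕ → AddSubgroup Γ) (c : ℝ) : Prop where
  le1 : ∀ j, F (j + 1) ≤ W j
  le2 : ∀ j, W j ≤ F j
  fin : ∀ j, (F (j + 1)).relIndex (W j) ≠ 0
  err : ∀ j, (Em A (W j) - Em A (F j)) + (Real.log ((F (j + 1)).relIndex (W j)) -
    (Em A (F (j + 1)) - Em A (W j))) ≤ c * (Dl A (F (j + 1)) - Dl A (F j))

theorem exists_lev {A : Finset Γ} (hA : A.Nonempty) {F : ℕ → AddSubgroup Γ} {m t : ℕ}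
    (ht : 1 ≤ t) (hmt : m ≤ 2 ^ t) (hF : Antitone F)
    (hmF : ∀ j, ∃ k : ℕ, 1 ≤ k ∧ k ≤ m ∧ ∀ x ∈ F j, k • x ∈ F (j + 1)) :
    ∃ W : ℕ → AddSubgroup Γ, Lev A F W (184520 * t) := by
  choose k hk1 hk2 hk3 using hmF
  choose W h1 h2 h3 h4 using fun j => level' hA (hk1 j) ht ((hk2 j).trans hmt) (hF (Nat.le_succ j))
    (hk3 j)
  exact ⟨W, h1, h2, h3, h4⟩

theorem image_card_inst {α β : Type*} (d d' : DecidableEq β) (A : Finset α) (f : α → β) :
    (@Finset.image α β d f A).card = (@Finset.image α β d' f A).card := by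
  have h : d = d' := Subsingleton.elim _ _
  subst h
  rfl

namespace Lev

variable {A : Finset Γ} {F W : ℕ → AddSubgroup Γ} {c : ℝ}

theorem a_nonneg (h : Lev A F W c) (j : ℕ) : 0 ≤ Em A (W j) - Em A (F j) :=
  sub_nonneg.2 (Em_mono (h.le2 j))

theorem b_nonneg (h : Lev A F W c) (hA : A.Nonempty) (j : ℕ) :
    0 ≤ Real.log ((F (j + 1)).relIndex (W j)) - (Em A (F (j + 1)) - Em A (W j)) := by
  have := Em_le_add hA (h.le1 j) (h.fin j)
  linarith

theorem sum_le (h : Lev A F W c) (hA : A.Nonempty) (hc : 0 ≤ c) {K : ℝ}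
    (hK : ((A + A).card : ℝ) ≤ K * A.card) (J : ℕ) :
    ∑ j ∈ range J, ((Em A (W j) - Em A (F j)) + (Real.log ((F (j + 1)).relIndex (W j)) -
      (Em A (F (j + 1)) - Em A (W j)))) ≤ c * Real.log K := by
  refine (Finset.sum_le_sum fun j _ => h.err j).trans ?_
  rw [← Finset.mul_sum, Finset.sum_range_sub (fun j => Dl A (F j))]
  refine mul_le_mul_of_nonneg_left ?_ hc
  have h1 := Dl_le hA hK (F J)
  have h2 := Dl_nonneg hA (F 0)
  linarith

theorem sum_a_le (h : Lev A F W c) (hA : A.Nonempty) (hc : 0 ≤ c) {K : ℝ}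
    (hK : ((A + A).card : ℝ) ≤ K * A.card) (J : ℕ) :
    ∑ j ∈ range J, (Em A (W j) - Em A (F j)) ≤ c * Real.log K := by
  refine (Finset.sum_le_sum fun j _ => ?_).trans (h.sum_le hA hc hK J)
  have := h.b_nonneg hA j
  linarith

theorem sum_b_le (h : Lev A F W c) (hA : A.Nonempty) (hc : 0 ≤ c) {K : ℝ}
    (hK : ((A + A).card : ℝ) ≤ K * A.card) (J : ℕ) :
    ∑ j ∈ range J, (Real.log ((F (j + 1)).relIndex (W j)) -
      (Em A (F (j + 1)) - Em A (W j))) ≤ c * Real.log K := by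
  refine (Finset.sum_le_sum fun j _ => ?_).trans (h.sum_le hA hc hK J)
  have := h.a_nonneg j
  linarith

/-- the product of the indices is at most the number of classes -/
theorem log_prod_le (h : Lev A F W c) (hA : A.Nonempty) (hc : 0 ≤ c) {K : ℝ}
    (hK : ((A + A).card : ℝ) ≤ K * A.card) (J : ℕ) :
    ∑ j ∈ range J, Real.log ((F (j + 1)).relIndex (W j)) ≤ c * Real.log K +
      Real.log (A.image fun y => (QuotientAddGroup.mk y : Γ ⧸ F J)).card := by
  have h1 := h.sum_b_le hA hc hK J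
  have h2 : ∑ j ∈ range J, (Em A (W j) - Em A (F j)) ≥ 0 :=
    Finset.sum_nonneg fun j _ => h.a_nonneg j
  have h3 : ∑ j ∈ range J, (Em A (F (j + 1)) - Em A (F j)) = Em A (F J) - Em A (F 0) :=
    Finset.sum_range_sub (fun j => Em A (F j)) J
  have h4 : Em A (F J) ≤ Real.log (A.image fun y => (QuotientAddGroup.mk y : Γ ⧸ F J)).card := by
    have h := En_le_log_card hA (fun y => (QuotientAddGroup.mk y : Γ ⧸ F J))
    unfold Em
    rw [image_card_inst _ (fun a b => Classical.propDecidable (a = b))]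
    exact h
  have h5 : 0 ≤ Em A (F 0) := En_nonneg hA _
  rw [Finset.sum_sub_distrib] at h1
  have h6 : ∑ j ∈ range J, (Em A (F (j + 1)) - Em A (W j)) =
      ∑ j ∈ range J, (Em A (F (j + 1)) - Em A (F j)) - ∑ j ∈ range J, (Em A (W j) - Em A (F j)) := by
    rw [← Finset.sum_sub_distrib]
    exact Finset.sum_congr rfl fun j _ => by ring
  rw [h6, h3] at h1
  linarith

end Lev

/-- largest class times number of classes -/
theorem class_mul_le {A : Finset Γ} (G : AddSubgroup Γ) {x : Γ} :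
    (cl A (fun y => (QuotientAddGroup.mk y : Γ ⧸ G)) x).card *
      (A.image fun y => (QuotientAddGroup.mk y : Γ ⧸ G)).card ≤ (A + A).card := by
  set C := cl A (fun y => (QuotientAddGroup.mk y : Γ ⧸ G)) x with hC
  set I := A.image fun y => (QuotientAddGroup.mk y : Γ ⧸ G) with hI
  have hrep : ∀ q : I, ∃ y ∈ A, (QuotientAddGroup.mk y : Γ ⧸ G) = q := fun q =>
    let ⟨y, hy, hyq⟩ := mem_image.1 q.2
    ⟨y, hy, hyq⟩
  choose rep hrep1 hrep2 using hrep
  have h1 : (C ×ˢ (univ : Finset I)).card ≤ (A + A).card := by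
    refine Finset.card_le_card_of_injOn (fun p => p.1 + rep p.2) ?_ ?_
    · rintro ⟨y, q⟩ hy
      rw [mem_coe, mem_product] at hy
      exact Finset.add_mem_add (cl_subset _ _ _ hy.1) (hrep1 q)
    · rintro ⟨y, q⟩ hy ⟨y', q'⟩ hy' hyy
      rw [mem_coe, mem_product] at hy hy'
      have h2 : y + rep q = y' + rep q' := hyy
      have h3 := (mem_cl.1 hy.1).2
      have h4 := (mem_cl.1 hy'.1).2
      have h5 : (QuotientAddGroup.mk (y + rep q) : Γ ⧸ G) = QuotientAddGroup.mk (y' + rep q') := by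
        rw [h2]
      rw [QuotientAddGroup.mk_add, QuotientAddGroup.mk_add, h3, h4] at h5
      have h6 := add_left_cancel h5
      rw [hrep2, hrep2] at h6
      have h7 : q = q' := Subtype.ext h6
      subst h7
      rw [add_right_cancel h2]
  rwa [card_product, card_univ, Fintype.card_coe] at h1

/-- a dense subset has almost as many classes -/
theorem classes_le {K : ℝ} {A B : Finset Γ} (hA : A.Nonempty)
    (hK : ((A + A).card : ℝ) ≤ K * A.card) (hB : B ⊆ A) (G : AddSubgroup Γ) :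
    ((A.image fun y => (QuotientAddGroup.mk y : Γ ⧸ G)).card : ℝ) * B.card ≤
      K * A.card * (B.image fun y => (QuotientAddGroup.mk y : Γ ⧸ G)).card := by
  set I := A.image fun y => (QuotientAddGroup.mk y : Γ ⧸ G) with hI
  have hIpos : (0 : ℝ) < I.card := by
    exact_mod_cast (hA.image _).card_pos
  have h1 : B.card = ∑ q ∈ B.image (fun y => (QuotientAddGroup.mk y : Γ ⧸ G)),
      (B.filter fun y => (QuotientAddGroup.mk y : Γ ⧸ G) = q).card :=
    Finset.card_eq_sum_card_image _ _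
  have h2 : ∀ q ∈ B.image (fun y => (QuotientAddGroup.mk y : Γ ⧸ G)),
      (I.card : ℝ) * ((B.filter fun y => (QuotientAddGroup.mk y : Γ ⧸ G) = q).card : ℝ) ≤
        K * A.card := by
    intro q hq
    obtain ⟨x, hx, rfl⟩ := mem_image.1 hq
    refine le_trans ?_ hK
    have h3 := class_mul_le (A := A) G (x := x)
    have h4 : (B.filter fun y => (QuotientAddGroup.mk y : Γ ⧸ G) = QuotientAddGroup.mk x).card ≤
        (cl A (fun y => (QuotientAddGroup.mk y : Γ ⧸ G)) x).card := by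
      refine card_le_card fun y hy => ?_
      rw [mem_filter] at hy
      exact mem_cl.2 ⟨hB hy.1, hy.2⟩
    have h5 : I.card * (B.filter fun y => (QuotientAddGroup.mk y : Γ ⧸ G) =
        QuotientAddGroup.mk x).card ≤ (A + A).card := by
      refine le_trans ?_ h3
      rw [mul_comm]
      exact Nat.mul_le_mul_right _ h4
    exact_mod_cast h5
  rw [h1]
  push_cast
  rw [mul_sum]
  refine (sum_le_sum h2).trans ?_
  rw [sum_const, nsmul_eq_mul, mul_comm]

/-- the levels separate the points of `A` after finitely many steps -/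
theorem exists_sep {F : ℕ → AddSubgroup Γ} (hF : Antitone F) (A : Finset Γ) :
    ∃ J₀ : ℕ, ∀ x ∈ A, ∀ y ∈ A, x - y ∈ F J₀ → ∀ j, x - y ∈ F j := by
  have h1 : ∀ p ∈ A ×ˢ A, ∃ J, p.1 - p.2 ∈ F J → ∀ j, p.1 - p.2 ∈ F j := by
    intro p _
    by_cases h : ∀ j, p.1 - p.2 ∈ F j
    · exact ⟨0, fun _ => h⟩
    · push Not at h
      obtain ⟨J, hJ⟩ := h
      exact ⟨J, fun h2 => absurd h2 hJ⟩
  choose! J hJ using h1
  refine ⟨(A ×ˢ A).sup J, fun x hx y hy hxy => ?_⟩
  have hp : (x, y) ∈ A ×ˢ A := mem_product.2 ⟨hx, hy⟩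
  exact hJ (x, y) hp (hF (Finset.le_sup hp) hxy)

/-- the subset with the tree property -/
theorem exists_subset {A : Finset Γ} {F W : ℕ → AddSubgroup Γ} {c : ℝ} (h : Lev A F W c)
    (hA : A.Nonempty) (hF : Antitone F) (hc : 0 ≤ c) {K : ℝ}
    (hK : ((A + A).card : ℝ) ≤ K * A.card) :
    ∃ B ⊆ A, (A.card : ℝ) ≤ Real.exp (c * Real.log K) * B.card ∧
      ∀ j, ∀ x ∈ B, ∀ y ∈ B, x - y ∈ F j → x - y ∈ W j := by
  obtain ⟨J, hJ⟩ := exists_sep hF A
  obtain ⟨B, hBA, hB1, hB2⟩ := tree J F W (fun j => ⟨h.le1 j, h.le2 j⟩) A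
  refine ⟨B, hBA, ?_, ?_⟩
  · have h1 := (jensen hA F W J).trans hB2
    have h2 := h.sum_a_le hA hc hK J
    have h3 : Real.exp (-(c * Real.log K)) ≤ Real.exp (-(∑ j ∈ range J,
        (En A (fun y => (QuotientAddGroup.mk y : Γ ⧸ W j)) -
          En A (fun y => (QuotientAddGroup.mk y : Γ ⧸ F j))))) :=
      Real.exp_le_exp.2 (neg_le_neg h2)
    have h4 : (A.card : ℝ) * Real.exp (-(c * Real.log K)) ≤ B.card :=
      (mul_le_mul_of_nonneg_left h3 (Nat.cast_nonneg _)).trans h1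
    have h5 : (0 : ℝ) < Real.exp (c * Real.log K) := Real.exp_pos _
    calc (A.card : ℝ) = Real.exp (c * Real.log K) * (A.card * Real.exp (-(c * Real.log K))) := by
          rw [Real.exp_neg]
          field_simp
      _ ≤ _ := mul_le_mul_of_nonneg_left h4 h5.le
  · intro j x hx y hy hxy
    rcases Nat.lt_or_ge j J with hj | hj
    · exact hB1 j hj x hx y hy hxy
    · exact h.le1 j (hJ x (hBA hx) y (hBA hy) (hF hj hxy) (j + 1))

/-! ### multiplication by `m` -/

theorem card_sup {F' F'' W W₁ : AddSubgroup Γ} {m : ℕ} (hm : F' ≤ F''.comap (nsmulAddMonoidHom m)) :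
    Nat.card (W₁.map (QuotientAddGroup.mk' F'') ⊔ (W.map (QuotientAddGroup.mk' F')).map
      (QuotientAddGroup.map F' F'' (nsmulAddMonoidHom m) hm) : AddSubgroup (Γ ⧸ F'')) =
      F''.relIndex (W₁ ⊔ W.map (nsmulAddMonoidHom m)) := by
  rw [← card_map, AddSubgroup.map_sup, AddSubgroup.map_map, AddSubgroup.map_map]
  rfl

/-- one level, multiplication by `m` -/
theorem mul_level {A : Finset Γ} (hA : A.Nonempty) {F W : ℕ → AddSubgroup Γ} {c : ℝ}
    (h : Lev A F W c) {m : ℕ} (hF : Antitone F) (hmF : ∀ j, ∀ x ∈ F j, m • x ∈ F (j + 1)) (j : ℕ) :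
    (W (j + 1)).relIndex (W (j + 1) ⊔ (W j).map (nsmulAddMonoidHom m)) ≠ 0 ∧
    Real.log ((W (j + 1)).relIndex (W (j + 1) ⊔ (W j).map (nsmulAddMonoidHom m))) ≤
      ((Es A (fun y => m • y) (F (j + 2)) - Em A (F (j + 2))) -
        (Es A (fun y => m • y) (F (j + 1)) - Em A (F (j + 1)))) +
      ((Em A (W (j + 1)) - Em A (F (j + 1))) + (Real.log ((F (j + 2)).relIndex (W (j + 1))) -
        (Em A (F (j + 2)) - Em A (W (j + 1))))) +
      (Real.log ((F (j + 1)).relIndex (W j)) - (Em A (F (j + 1)) - Em A (W j))) := by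
  have hA0 := card_pos' hA
  have hcomap : F (j + 1) ≤ (F (j + 2)).comap (nsmulAddMonoidHom m) := fun x hx =>
    hmF (j + 1) x hx
  set V := (W (j + 1)).map (QuotientAddGroup.mk' (F (j + 2))) with hV
  set V' := (W j).map (QuotientAddGroup.mk' (F (j + 1))) with hV'
  set φ := QuotientAddGroup.map (F (j + 1)) (F (j + 2)) (nsmulAddMonoidHom m) hcomap with hφ
  have cV : Nat.card V = (F (j + 2)).relIndex (W (j + 1)) := card_map
  have cV' : Nat.card V' = (F (j + 1)).relIndex (W j) := card_map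
  have cS : Nat.card (V ⊔ V'.map φ : AddSubgroup (Γ ⧸ F (j + 2))) =
      (F (j + 2)).relIndex (W (j + 1) ⊔ (W j).map (nsmulAddMonoidHom m)) := card_sup hcomap
  have fV : Finite V := Nat.finite_of_card_ne_zero (by rw [cV]; exact h.fin (j + 1))
  have fV' : Finite V' := Nat.finite_of_card_ne_zero (by rw [cV']; exact h.fin j)
  have fS : Finite (V ⊔ V'.map φ : AddSubgroup (Γ ⧸ F (j + 2))) := by
    let f : V × V' →+ Γ ⧸ F (j + 2) := (V.subtype).coprod (φ.comp V'.subtype)
    have h1 : (V ⊔ V'.map φ : AddSubgroup (Γ ⧸ F (j + 2))) ≤ f.range := by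
      refine sup_le ?_ ?_
      · intro x hx
        exact ⟨(⟨x, hx⟩, 0), by simp [f]⟩
      · rintro _ ⟨y, hy, rfl⟩
        exact ⟨(0, ⟨y, hy⟩), by simp [f]⟩
    have h2 : Finite f.range := Finite.of_surjective f.rangeRestrict f.rangeRestrict_surjective
    exact Finite.of_injective _ (AddSubgroup.inclusion_injective h1)
  have hmul : (F (j + 2)).relIndex (W (j + 1)) *
      (W (j + 1)).relIndex (W (j + 1) ⊔ (W j).map (nsmulAddMonoidHom m)) =
      (F (j + 2)).relIndex (W (j + 1) ⊔ (W j).map (nsmulAddMonoidHom m)) :=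
    AddSubgroup.relIndex_mul_relIndex _ _ _ (h.le1 (j + 1)) le_sup_left
  have hS0 : (F (j + 2)).relIndex (W (j + 1) ⊔ (W j).map (nsmulAddMonoidHom m)) ≠ 0 := by
    rw [← cS]
    exact Nat.card_pos.ne'
  have hr0 : (W (j + 1)).relIndex (W (j + 1) ⊔ (W j).map (nsmulAddMonoidHom m)) ≠ 0 := by
    intro h0
    rw [h0, mul_zero] at hmul
    exact hS0 hmul.symm
  refine ⟨hr0, ?_⟩
  have hlog : Real.log ((F (j + 2)).relIndex (W (j + 1) ⊔ (W j).map (nsmulAddMonoidHom m))) =
      Real.log ((F (j + 2)).relIndex (W (j + 1))) +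
      Real.log ((W (j + 1)).relIndex (W (j + 1) ⊔ (W j).map (nsmulAddMonoidHom m))) := by
    rw [← hmul, Nat.cast_mul, Real.log_mul (by exact_mod_cast h.fin (j + 1)) (by exact_mod_cast hr0)]
  have s1 := Es_step hA (fun y => m • y) (F := F (j + 1)) (F' := F (j + 2)) (L := F j)
    (hF (Nat.le_succ _)) (fun x _ y _ hxy => by
      rw [← smul_sub]
      exact hmF j _ hxy)
  -- lower bound for each pair of classes
  set e₁ : Γ → ℝ := fun x => Em (cl A (fun y => (QuotientAddGroup.mk y : Γ ⧸ F (j + 1))) x) (W (j + 1)) +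
    Real.log ((F (j + 2)).relIndex (W (j + 1))) -
    Em (cl A (fun y => (QuotientAddGroup.mk y : Γ ⧸ F (j + 1))) x) (F (j + 2)) with he₁
  set e₀ : Γ → ℝ := fun x => Em (cl A (fun y => (QuotientAddGroup.mk y : Γ ⧸ F j)) x) (W j) +
    Real.log ((F (j + 1)).relIndex (W j)) -
    Em (cl A (fun y => (QuotientAddGroup.mk y : Γ ⧸ F j)) x) (F (j + 1)) with he₀
  have hpair : ∀ x ∈ A, ∀ y ∈ A,
      Real.log ((F (j + 2)).relIndex (W (j + 1) ⊔ (W j).map (nsmulAddMonoidHom m))) - e₁ x - e₀ y ≤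
      En (cl A (fun y => (QuotientAddGroup.mk y : Γ ⧸ F (j + 1))) x ×ˢ
        cl A (fun y => (QuotientAddGroup.mk y : Γ ⧸ F j)) y)
        (fun p => (QuotientAddGroup.mk (p.1 + m • p.2) : Γ ⧸ F (j + 2))) := by
    intro x hx y hy
    have h1 := lower_sum (cl_nonempty (f := fun y => (QuotientAddGroup.mk y : Γ ⧸ F (j + 1))) hx)
      (cl_nonempty (f := fun y => (QuotientAddGroup.mk y : Γ ⧸ F j)) hy)
      (fun y => (QuotientAddGroup.mk y : Γ ⧸ F (j + 2)))
      (fun y => (QuotientAddGroup.mk y : Γ ⧸ F (j + 1))) φ V V'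
    rw [hV, hV', Em_map (h.le1 (j + 1)), Em_map (h.le1 j), ← hV, ← hV', cS, cV, cV'] at h1
    have h2 : (fun p : Γ × Γ => (QuotientAddGroup.mk p.1 : Γ ⧸ F (j + 2)) +
        φ (QuotientAddGroup.mk p.2 : Γ ⧸ F (j + 1))) =
        (fun p => (QuotientAddGroup.mk (p.1 + m • p.2) : Γ ⧸ F (j + 2))) := by
      funext p
      rfl
    rw [h2] at h1
    have h3 : ∀ S : Finset Γ, En S (fun y => (QuotientAddGroup.mk y : Γ ⧸ F (j + 2))) =
      Em S (F (j + 2)) := fun S => rfl
    have h4 : ∀ S : Finset Γ, En S (fun y => (QuotientAddGroup.mk y : Γ ⧸ F (j + 1))) =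
      Em S (F (j + 1)) := fun S => rfl
    rw [h3, h4] at h1
    simp only [he₁, he₀]
    linarith
  have hsum := Finset.sum_le_sum fun x hx => Finset.sum_le_sum fun y hy => hpair x hx y hy
  simp only [Finset.sum_sub_distrib, Finset.sum_const, nsmul_eq_mul, ← Finset.mul_sum] at hsum
  have a1 : ∑ x ∈ A, e₁ x = A.card * ((Em A (W (j + 1)) - Em A (F (j + 1))) +
      Real.log ((F (j + 2)).relIndex (W (j + 1))) - (Em A (F (j + 2)) - Em A (F (j + 1)))) := by
    rw [Em_chain hA (h.le2 (j + 1)), Em_chain hA (hF (Nat.le_succ (j + 1)))]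
    simp only [he₁]
    rw [sum_sub_distrib, sum_add_distrib, sum_const, nsmul_eq_mul]
    field_simp
    ring
  have a0 : ∑ x ∈ A, e₀ x = A.card * ((Em A (W j) - Em A (F j)) +
      Real.log ((F (j + 1)).relIndex (W j)) - (Em A (F (j + 1)) - Em A (F j))) := by
    rw [Em_chain hA (h.le2 j), Em_chain hA (hF (Nat.le_succ j))]
    simp only [he₀]
    rw [sum_sub_distrib, sum_add_distrib, sum_const, nsmul_eq_mul]
    field_simp
    ring
  set X := ∑ x ∈ A, ∑ y ∈ A, En (cl A (fun y => (QuotientAddGroup.mk y : Γ ⧸ F (j + 1))) x ×ˢ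
        cl A (fun y => (QuotientAddGroup.mk y : Γ ⧸ F j)) y)
        (fun p => (QuotientAddGroup.mk (p.1 + m • p.2) : Γ ⧸ F (j + 2))) with hX
  have s2 : Es A (fun y => m • y) (F (j + 1)) + X / (A.card * A.card) ≤
      Es A (fun y => m • y) (F (j + 2)) := s1
  rw [a1, a0] at hsum
  have s3 : Real.log ((F (j + 2)).relIndex (W (j + 1) ⊔ (W j).map (nsmulAddMonoidHom m))) -
      ((Em A (W (j + 1)) - Em A (F (j + 1))) +
      Real.log ((F (j + 2)).relIndex (W (j + 1))) - (Em A (F (j + 2)) - Em A (F (j + 1)))) -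
      ((Em A (W j) - Em A (F j)) +
      Real.log ((F (j + 1)).relIndex (W j)) - (Em A (F (j + 1)) - Em A (F j))) ≤
      X / (A.card * A.card) := by
    rw [le_div_iff₀ (by positivity)]
    refine le_trans (le_of_eq ?_) hsum
    ring
  have hb := h.b_nonneg hA (j + 1)
  rw [hlog] at s3
  have e1 : j + 1 + 1 = j + 2 := rfl
  rw [e1] at hb
  linarith

theorem mul_sum_le {A : Finset Γ} (hA : A.Nonempty) {F W : ℕ → AddSubgroup Γ} {c : ℝ}
    (h : Lev A F W c) {m : ℕ} (hF : Antitone F) (hmF : ∀ j, ∀ x ∈ F j, m • x ∈ F (j + 1))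
    (hc : 0 ≤ c) {K : ℝ} (hK : ((A + A).card : ℝ) ≤ K * A.card) (J : ℕ) :
    ∑ j ∈ range J, Real.log ((W (j + 1)).relIndex (W (j + 1) ⊔ (W j).map (nsmulAddMonoidHom m))) ≤
      (Real.log ((A ×ˢ A).image fun p => p.1 + m • p.2).card - Real.log A.card) +
        2 * (c * Real.log K) := by
  refine (Finset.sum_le_sum fun j _ => (mul_level hA h hF hmF j).2).trans ?_
  rw [Finset.sum_add_distrib, Finset.sum_add_distrib]
  have h1 := h.sum_b_le hA hc hK J
  have h2 : ∑ j ∈ range J, ((Em A (W (j + 1)) - Em A (F (j + 1))) +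
      (Real.log ((F (j + 2)).relIndex (W (j + 1))) - (Em A (F (j + 2)) - Em A (W (j + 1))))) ≤
      c * Real.log K := by
    have h3 := h.sum_le hA hc hK (J + 1)
    rw [Finset.sum_range_succ'] at h3
    have h4 := h.a_nonneg 0
    have h5 := h.b_nonneg hA 0
    have h6 : ∑ j ∈ range J, ((Em A (W (j + 1)) - Em A (F (j + 1))) +
      (Real.log ((F (j + 2)).relIndex (W (j + 1))) - (Em A (F (j + 2)) - Em A (W (j + 1))))) =
      ∑ j ∈ range J, ((Em A (W (j + 1)) - Em A (F (j + 1))) +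
      (Real.log ((F (j + 1 + 1)).relIndex (W (j + 1))) -
        (Em A (F (j + 1 + 1)) - Em A (W (j + 1))))) := rfl
    rw [h6]
    linarith
  have h3 : ∑ j ∈ range J, ((Es A (fun y => m • y) (F (j + 2)) - Em A (F (j + 2))) -
        (Es A (fun y => m • y) (F (j + 1)) - Em A (F (j + 1)))) =
      (Es A (fun y => m • y) (F (J + 1)) - Em A (F (J + 1))) -
      (Es A (fun y => m • y) (F 1) - Em A (F 1)) :=
    Finset.sum_range_sub (fun j => Es A (fun y => m • y) (F (j + 1)) - Em A (F (j + 1))) J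
  have h4 := Es_le hA (fun y => m • y) (F (J + 1))
  have h5 := Em_le_Es hA (fun y => m • y) (F 1)
  linarith

/-- sums with a dilate -/
theorem dilate_le {K : ℝ} {A : Finset Γ} (hA : A.Nonempty)
    (hK : ((A + A).card : ℝ) ≤ K * A.card) {m t : ℕ} (hmt : m < 2 ^ t) :
    Real.log ((A ×ˢ A).image fun p => p.1 + m • p.2).card - Real.log A.card ≤
      (30 * t + 9) * Real.log K := by
  have hK1 := one_le_K hA hK
  have hA0 := card_pos' hA
  have hK0 : 0 < K := by linarith
  have hLD : Pool.Agent.W5h6.LocDil.LD (K ^ 3) 2 A := by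
    intro n hn
    have hsub : Pool.Agent.TH414.Dil.nd n A ⊆ n • A := by
      intro x hx
      unfold Pool.Agent.TH414.Dil.nd at hx
      obtain ⟨a, ha, rfl⟩ := mem_image.1 hx
      exact Finset.nsmul_mem_nsmul ha
    have h1 : ((A + Pool.Agent.TH414.Dil.nd n A).card : ℝ) ≤ ((n + 1) • A - 0 • A).card := by
      have h2 : A + Pool.Agent.TH414.Dil.nd n A ⊆ (n + 1) • A - 0 • A := by
        rw [zero_nsmul, sub_zero, succ_nsmul, add_comm]
        exact Finset.add_subset_add_right hsub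
      exact_mod_cast card_le_card h2
    have h3 := Pool.Agent.W5h6.LocDil.plu hA hK (n + 1) 0
    refine h1.trans (h3.trans ?_)
    refine mul_le_mul_of_nonneg_right ?_ hA0.le
    exact pow_le_pow_right₀ hK1 (by omega)
  have h1 := Pool.Agent.W5h6.LocDil.dig_card hA hLD (by norm_num) t m hmt
  have h2 : ((A ×ˢ A).image fun p => p.1 + m • p.2) = A + Pool.Agent.TH414.Dil.nd m A := by
    ext x
    unfold Pool.Agent.TH414.Dil.nd
    rw [mem_image, Finset.mem_add]
    constructor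
    · rintro ⟨⟨a, b⟩, h, rfl⟩
      rw [mem_product] at h
      exact ⟨a, h.1, _, mem_image_of_mem _ h.2, rfl⟩
    · rintro ⟨a, ha, b, hb, rfl⟩
      obtain ⟨d, hd, rfl⟩ := mem_image.1 hb
      exact ⟨(a, d), mem_product.2 ⟨ha, hd⟩, rfl⟩
  have hne : (A + Pool.Agent.TH414.Dil.nd m A).Nonempty := by
    refine hA.add ?_
    unfold Pool.Agent.TH414.Dil.nd
    exact hA.image _
  rw [h2]
  have h3 := Real.log_le_log (card_pos' hne) h1
  rw [Real.log_mul (by positivity) hA0.ne', Real.log_pow, Real.log_pow] at h3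
  push_cast at h3
  linarith

end Pool.Agent.W5h6.Skel
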