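import Pool.Agent.W5h6.Skel.Uni
set_option autoImplicit false

/-! Marton's theorem for a law in a coset of a group of bounded exponent, and the level lemma. -/

namespace Pool.Agent.W5h6.Skel

open Finset H112
open scoped Classical

variable {Ω β : Type*} {Q : Type*} [AddCommGroup Q]

/-- the theorem of Marton for `π x`, `x` uniform on `S`, all values being in one coset of a group
which is killed by `m` -/
theorem marton {S : Finset Ω} (hS : S.Nonempty) (π : Ω → Q) {N : AddSubgroup Q} {m t : ℕ}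
    (hm : 0 < m) (ht : 1 ≤ t) (hmt : m ≤ 2 ^ t) (hN : ∀ x ∈ N, m • x = 0)
    (hc : ∀ x ∈ S, ∀ y ∈ S, π x - π y ∈ N) :
    ∃ V : AddSubgroup Q, V ≤ N ∧ Finite V ∧
      En S (fun x => (QuotientAddGroup.mk (π x) : Q ⧸ V)) ≤
        20502 * t * (En (S ×ˢ S) (fun p => π p.1 + π p.2) - En S π) ∧
      Real.log (Nat.card V) - En S π ≤
        20502 * t * (En (S ×ˢ S) (fun p => π p.1 + π p.2) - En S π) := by
  obtain ⟨x₀, hx₀⟩ := id hS
  set s : Finset Q := S.image (fun x => π x - π x₀) with hs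
  have hsN : ∀ x ∈ s, x ∈ N := by
    intro x hx
    obtain ⟨y, hy, rfl⟩ := mem_image.1 hx
    exact hc y hy x₀ hx₀
  set M := AddSubgroup.closure (s : Set Q) with hM
  have hMN : M ≤ N := (AddSubgroup.closure_le N).2 hsN
  have hMf : Finite M := finite_closure hm hN s hsN
  let _ : Fintype M := Fintype.ofFinite M
  have : NeZero m := ⟨hm.ne'⟩
  let _ : Module (ZMod m) M := AddCommGroup.zmodModule (fun x => Subtype.ext (by
    simpa using hN _ (hMN x.2)))
  have hmem : ∀ x ∈ S, π x - π x₀ ∈ M := fun x hx =>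
    AddSubgroup.subset_closure (by exact_mod_cast mem_image_of_mem _ hx)
  let ρ : Ω → M := fun x => if h : π x - π x₀ ∈ M then ⟨π x - π x₀, h⟩ else 0
  have hρ : ∀ x ∈ S, ((ρ x : M) : Q) = π x - π x₀ := by
    intro x hx
    simp only [ρ]
    rw [dif_pos (hmem x hx)]
  let μ : M → ℝ := fun v => (unif S).mapDomain ρ v
  have htoF : H137.PFR.toF μ = (unif S).mapDomain ρ := by
    ext v
    rfl
  have hμ : H137.PFR.Law μ := by
    have h1 := isLaw_mapDomain (isLaw_unif hS) ρ
    refine ⟨fun v => h1.1 v, ?_⟩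
    rw [← htoF] at h1
    have h2 := h1.2
    rw [H137.PFR.toF_sum _ _ (fun _ => rfl)] at h2
    exact h2
  have hent : H137.PFR.ent μ = En S π := by
    rw [← H137.PFR.ent_toF, htoF]
    change En S ρ = En S π
    refine En_congr _ _ fun x hx y hy => ?_
    rw [Subtype.ext_iff, hρ x hx, hρ y hy]
    exact ⟨fun h => by rw [h], fun h => sub_left_injective h⟩
  have hconv : H137.PFR.ent (H137.PFR.conv μ μ) = En (S ×ˢ S) (fun p => π p.1 + π p.2) := by
    have h1 : H137.PFR.toF (H137.PFR.prod μ μ) = prodLaw ((unif S).mapDomain ρ)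
        ((unif S).mapDomain ρ) := by
      ext ⟨v, w⟩
      rfl
    unfold H137.PFR.conv
    rw [← H137.PFR.ent_toF, H137.PFR.toF_push, h1, ← Conv_mapDomain_prodLaw, unif_prod,
      ← Finsupp.mapDomain_comp]
    change En (S ×ˢ S) (fun p => ρ p.1 + ρ p.2) = _
    refine En_congr _ _ fun x hx y hy => ?_
    rw [mem_product] at hx hy
    rw [Subtype.ext_iff, AddSubgroup.coe_add, AddSubgroup.coe_add, hρ _ hx.1, hρ _ hx.2,
      hρ _ hy.1, hρ _ hy.2]
    constructor
    · intro h
      have h2 : (π x.1 - π x₀) + (π x.2 - π x₀) = (π x.1 + π x.2) - (π x₀ + π x₀) := by abel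
      have h3 : (π y.1 - π x₀) + (π y.2 - π x₀) = (π y.1 + π y.2) - (π x₀ + π x₀) := by abel
      rw [h2, h3, h]
    · intro h
      have h2 : (π x.1 - π x₀) + (π x.2 - π x₀) = (π x.1 + π x.2) - (π x₀ + π x₀) := by abel
      have h3 : (π y.1 - π x₀) + (π y.2 - π x₀) = (π y.1 + π y.2) - (π x₀ + π x₀) := by abel
      rw [h2, h3] at h
      exact sub_left_injective h
  obtain ⟨G, hG1, hG2⟩ := Pool.Agent.TH404.Tor.entropic_marton (m := m) t ht hmt hμ
  rw [hent, hconv] at hG1 hG2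
  have hcard : Nat.card (G.map M.subtype) = Nat.card G :=
    Nat.card_congr (G.equivMapOfInjective M.subtype M.subtype_injective).toEquiv.symm
  refine ⟨G.map M.subtype, ?_, ?_, ?_, ?_⟩
  · rintro x hx
    obtain ⟨y, -, rfl⟩ := AddSubgroup.mem_map.1 hx
    exact hMN y.2
  · exact Nat.finite_of_card_ne_zero (by rw [hcard]; exact Nat.card_pos.ne')
  · refine le_trans (le_of_eq ?_) hG1
    unfold H137.PFR.entMod
    rw [H137.PFR.H_toF, htoF, ← Finsupp.mapDomain_comp]
    change _ = En S _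
    refine En_congr _ _ fun x hx y hy => ?_
    simp only [Function.comp_apply]
    rw [QuotientAddGroup.eq, QuotientAddGroup.eq]
    have h2 : -π x + π y = M.subtype (-ρ x + ρ y) := by
      rw [map_add, map_neg, AddSubgroup.subtype_apply, AddSubgroup.subtype_apply, hρ x hx, hρ y hy]
      abel
    rw [h2]
    constructor
    · intro h
      exact AddSubgroup.mem_map_of_mem _ h
    · intro h
      obtain ⟨z, hz, hzz⟩ := AddSubgroup.mem_map.1 h
      rwa [← M.subtype_injective hzz]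
  · rw [hcard]
    exact hG2

/-- **Level lemma.** -/
theorem level {S : Finset Ω} (hS : S.Nonempty) (π : Ω → Q) (g : Ω → β) {N : AddSubgroup Q} {m t : ℕ}
    (hm : 0 < m) (ht : 1 ≤ t) (hmt : m ≤ 2 ^ t) (hN : ∀ x ∈ N, m • x = 0)
    (hc : ∀ x ∈ S, ∀ y ∈ S, g x = g y → π x - π y ∈ N) :
    ∃ V : AddSubgroup Q, V ≤ N ∧ Finite V ∧
      ∑ x ∈ S, (2 * En (cl S g x) (fun y => (QuotientAddGroup.mk (π y) : Q ⧸ V)) +
        Real.log (Nat.card V) - En (cl S g x) π) ≤
      184520 * t * ((∑ x ∈ S, ∑ y ∈ S, En (cl S g x ×ˢ cl S g y) (fun p => π p.1 + π p.2)) / S.card -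
        ∑ x ∈ S, En (cl S g x) π) := by
  have hS0 := card_pos' hS
  have ht' : (1 : ℝ) ≤ t := by exact_mod_cast ht
  -- the laws and their distances
  set P : Ω → AddMonoidAlgebra ℝ Q := fun x => PL (cl S g x) π with hP
  have lawP : ∀ x ∈ S, Law (P x) := fun x hx => law_PL (cl_nonempty hx) π
  set h : Ω → ℝ := fun x => H (P x) with hh
  set d : Ω → Ω → ℝ := fun x y => H (P x * P y) - h x / 2 - h y / 2 with hd
  have hE1 : ∀ x, En (cl S g x) π = h x := fun x => rfl
  have hE2 : ∀ x y, En (cl S g x ×ˢ cl S g y) (fun p => π p.1 + π p.2) = H (P x * P y) := by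
    intro x y
    simp only [hP]
    rw [PL_mul, H_PL]
  have hdnn : ∀ x ∈ S, ∀ y ∈ S, 0 ≤ d x y := by
    intro x hx y hy
    have h1 := H_le_mul (lawP x hx) (lawP y hy)
    have h2 := H_le_mul (lawP y hy) (lawP x hx)
    rw [mul_comm] at h2
    simp only [hd, hh]
    linarith
  have hself : ∀ x ∈ S, ∀ y ∈ S, ∀ z ∈ S, H (P x * P x) - h x ≤ d y x + d y z + d z x := by
    intro x hx y hy z hz
    have h1 := H_ruzsa (lawP x hx) (lawP x hx).refl (lawP y hy)
    rw [refl_refl] at h1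
    have h2 := H_ruzsa (lawP y hy) (lawP x hx) (lawP z hz)
    have h3 : P x * P y = P y * P x := mul_comm _ _
    rw [h3] at h1
    simp only [hd, hh]
    linarith
  -- sums of distances
  set D : Ω → ℝ := fun y => ∑ x ∈ S, d x y with hD
  set T : ℝ := ∑ y ∈ S, D y with hT
  have hTeq : T = (∑ x ∈ S, ∑ y ∈ S, H (P x * P y)) - S.card * ∑ x ∈ S, h x := by
    simp only [hT, hD, hd]
    rw [Finset.sum_comm]
    simp only [Finset.sum_sub_distrib, Finset.sum_const, nsmul_eq_mul, ← Finset.sum_div,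
      ← Finset.mul_sum]
    ring
  obtain ⟨y, hy, hDy⟩ : ∃ y ∈ S, D y * S.card ≤ T := by
    by_contra hcon
    push Not at hcon
    have h1 : ∑ y ∈ S, T < ∑ y ∈ S, D y * S.card := Finset.sum_lt_sum_of_nonempty hS hcon
    rw [Finset.sum_const, nsmul_eq_mul, ← Finset.sum_mul, mul_comm] at h1
    exact lt_irrefl _ h1
  -- the doubling of the chosen law
  have hyy : (H (P y * P y) - h y) * (S.card * S.card) ≤ 3 * T := by
    have h1 : ∑ x ∈ S, ∑ z ∈ S, (H (P y * P y) - h y) ≤ ∑ x ∈ S, ∑ z ∈ S, (d x y + d x z + d z y) :=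
      Finset.sum_le_sum fun x hx => Finset.sum_le_sum fun z hz => hself y hy x hx z hz
    have h2 : ∑ x ∈ S, ∑ z ∈ S, d x z = T := by
      rw [Finset.sum_comm]
    simp only [Finset.sum_add_distrib, Finset.sum_const, nsmul_eq_mul] at h1
    rw [← Finset.mul_sum, h2] at h1
    have h3 : ∑ x ∈ S, d x y = D y := rfl
    rw [h3] at h1
    nlinarith
  have hTnn : 0 ≤ T := Finset.sum_nonneg fun y hy => Finset.sum_nonneg fun x hx => hdnn x hx y hy
  obtain ⟨V, hVN, hVf, hV1, hV2⟩ := marton (cl_nonempty hy) π hm ht hmt hN (by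
    intro a ha b hb
    rw [mem_cl] at ha hb
    exact hc a ha.1 b hb.1 (ha.2.trans hb.2.symm))
  rw [hE1, hE2] at hV1 hV2
  have := hVf
  let _ : Fintype V := Fintype.ofFinite V
  refine ⟨V, hVN, hVf, ?_⟩
  have hU : ∀ x ∈ S, En (cl S g x) (fun y => (QuotientAddGroup.mk (π y) : Q ⧸ V)) =
      H (P x * UV V) - Real.log (Nat.card V) := by
    intro x hx
    rw [H_mul_UV (cl_nonempty hx)]
    ring
  have hruz : ∀ x ∈ S, H (P x * UV V) + h y ≤ H (P x * P y) + H (P y * UV V) := by
    intro x hx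
    have h1 := H_ruzsa (lawP x hx) (law_UV V) (lawP y hy)
    rwa [refl_UV] at h1
  have hyV : 2 * H (P y * UV V) - Real.log (Nat.card V) - h y ≤
      3 * (20502 * t * (H (P y * P y) - h y)) := by
    rw [hU y hy] at hV1
    linarith
  have hbound : ∀ x ∈ S, 2 * En (cl S g x) (fun y => (QuotientAddGroup.mk (π y) : Q ⧸ V)) +
      Real.log (Nat.card V) - En (cl S g x) π ≤
      2 * d x y + 3 * (20502 * t * (H (P y * P y) - h y)) := by
    intro x hx
    have h1 := hruz x hx
    rw [hU x hx, hE1]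
    simp only [hd]
    linarith
  have hR : (∑ x ∈ S, ∑ y ∈ S, En (cl S g x ×ˢ cl S g y) (fun p => π p.1 + π p.2)) / S.card -
      ∑ x ∈ S, En (cl S g x) π = T / S.card := by
    simp only [hE1, hE2]
    rw [hTeq]
    field_simp
  rw [hR]
  refine (Finset.sum_le_sum hbound).trans ?_
  rw [Finset.sum_add_distrib, ← Finset.mul_sum, Finset.sum_const, nsmul_eq_mul]
  change 2 * D y + _ ≤ _
  rw [mul_div_assoc', le_div_iff₀ hS0]
  have h5 : (S.card : ℝ) * (3 * (20502 * t * (H (P y * P y) - h y))) * S.card =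
      3 * 20502 * t * ((H (P y * P y) - h y) * (S.card * S.card)) := by ring
  rw [add_mul, h5]
  have h6 : 3 * 20502 * t * ((H (P y * P y) - h y) * (S.card * S.card)) ≤
      3 * 20502 * t * (3 * T) := mul_le_mul_of_nonneg_left hyy (by positivity)
  nlinarith

end Pool.Agent.W5h6.Skel
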