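import Pool.Agent.W5h6.Skel.En
import Pool.Agent.TH404.Tor.Bound
set_option autoImplicit false

/-! Uniform laws on finite subgroups, entropies modulo a subgroup, Marton's theorem for a law in a
coset of a group of bounded exponent. -/

namespace Pool.Agent.W5h6.Skel

open Finset H112
open scoped Classical

variable {Ω β : Type*} {Q R : Type*} [AddCommGroup Q] [AddCommGroup R]

/-- the uniform law on a finite subgroup -/
noncomputable def UV (V : AddSubgroup Q) [Fintype V] : AddMonoidAlgebra ℝ Q :=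
  PL (univ : Finset V) (fun v => (v : Q))

theorem law_UV (V : AddSubgroup Q) [Fintype V] : Law (UV V) := law_PL univ_nonempty _

theorem H_UV (V : AddSubgroup Q) [Fintype V] : H (UV V) = Real.log (Nat.card V) := by
  unfold UV
  rw [H_PL, En_id univ_nonempty _ (Subtype.val_injective.injOn), card_univ,
    Nat.card_eq_fintype_card]

theorem refl_UV (V : AddSubgroup Q) [Fintype V] : H112.refl (UV V) = UV V := by
  apply AddMonoidAlgebra.coeff_injective
  unfold H112.refl UV PL
  simp only [AddMonoidAlgebra.coeff_ofCoeff]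
  rw [← Finsupp.mapDomain_comp]
  have h1 : (fun x : Q => -x) ∘ (fun v : V => (v : Q)) = (fun v : V => (v : Q)) ∘ (Equiv.neg V) := by
    funext v
    simp
  rw [h1, Finsupp.mapDomain_comp]
  congr 1
  rw [← Finsupp.equivMapDomain_eq_mapDomain]
  ext v
  rw [Finsupp.equivMapDomain_apply, unif_apply, unif_apply]
  simp

/-- adding a uniform element of `V` -/
theorem En_add_uniform {S : Finset Ω} (hS : S.Nonempty) (π : Ω → Q) (V : AddSubgroup Q) [Fintype V] :
    En (S ×ˢ (univ : Finset V)) (fun p => π p.1 + (p.2 : Q)) =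
      En S (fun x => (QuotientAddGroup.mk (π x) : Q ⧸ V)) + Real.log (Nat.card V) := by
  have hV : (univ : Finset V).Nonempty := univ_nonempty
  have hSV : (S ×ˢ (univ : Finset V)).Nonempty := hS.product hV
  have h1 : ∀ x ∈ S, ∀ v : V, (cl (S ×ˢ (univ : Finset V)) (fun p => π p.1 + (p.2 : Q)) (x, v)).card =
      (cl S (fun x => (QuotientAddGroup.mk (π x) : Q ⧸ V)) x).card := by
    intro x hx v
    refine Finset.card_nbij (fun p => p.1) ?_ ?_ ?_
    · rintro ⟨y, w⟩ hy
      rw [Finset.mem_coe, mem_cl, mem_product] at hy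
      rw [Finset.mem_coe, mem_cl]
      refine ⟨hy.1.1, ?_⟩
      have h2 : π y + (w : Q) = π x + (v : Q) := hy.2
      rw [eq_comm, QuotientAddGroup.eq]
      have h3 : -π x + π y = (v : Q) - w := by
        rw [eq_sub_iff_add_eq, add_assoc, h2]
        abel
      rw [h3]
      exact V.sub_mem v.2 w.2
    · rintro ⟨y, w⟩ hy ⟨y', w'⟩ hy' h
      rw [Finset.mem_coe, mem_cl] at hy hy'
      simp only at h hy hy'
      subst h
      have h2 : π y + (w : Q) = π y + (w' : Q) := hy.2.trans hy'.2.symm
      have h3 : w = w' := Subtype.ext (add_left_cancel h2)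
      rw [h3]
    · intro y hy
      rw [Finset.mem_coe, mem_cl] at hy
      have h2 : -π x + π y ∈ V := by
        rw [← QuotientAddGroup.eq]
        exact hy.2.symm
      refine ⟨(y, v - ⟨-π x + π y, h2⟩), ?_, rfl⟩
      rw [Finset.mem_coe, mem_cl]
      refine ⟨mem_product.2 ⟨hy.1, mem_univ _⟩, ?_⟩
      simp only [AddSubgroup.coe_sub]
      abel
  have hS0 := (card_pos' hS).ne'
  have hV0 := (card_pos' hV).ne'
  rw [En_eq hSV, En_eq hS, sum_product, card_product, Nat.cast_mul]
  have h2 : ∀ x ∈ S, ∑ v : V, (Real.log ((S.card : ℝ) * ((univ : Finset V).card : ℝ)) -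
      Real.log (cl (S ×ˢ (univ : Finset V)) (fun p => π p.1 + (p.2 : Q)) (x, v)).card) =
      (univ : Finset V).card * ((Real.log S.card -
        Real.log (cl S (fun x => (QuotientAddGroup.mk (π x) : Q ⧸ V)) x).card) +
        Real.log (Nat.card V)) := by
    intro x hx
    rw [Finset.sum_congr rfl fun v _ => by rw [h1 x hx v], Finset.sum_const, nsmul_eq_mul,
      Real.log_mul hS0 hV0, card_univ, Nat.card_eq_fintype_card]
    ring
  rw [Finset.sum_congr rfl h2, ← Finset.mul_sum, Finset.sum_add_distrib, Finset.sum_const,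
    nsmul_eq_mul]
  field_simp

theorem H_mul_UV {S : Finset Ω} (hS : S.Nonempty) (π : Ω → Q) (V : AddSubgroup Q) [Fintype V] :
    H (PL S π * UV V) = En S (fun x => (QuotientAddGroup.mk (π x) : Q ⧸ V)) +
      Real.log (Nat.card V) := by
  unfold UV
  rw [PL_mul, H_PL, En_add_uniform hS]

/-- entropy of a homomorphism on a finite group -/
theorem En_hom {G : Type*} [AddCommGroup G] [Fintype G] (f : G →+ Q) :
    En (univ : Finset G) f = Real.log (Nat.card f.range) := by
  have hne : (univ : Finset G).Nonempty := univ_nonempty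
  have h1 : ∀ x : G, (cl univ f x).card = Nat.card f.ker := by
    intro x
    rw [Nat.card_eq_fintype_card, ← Fintype.card_coe]
    refine Fintype.card_congr ⟨fun y => ⟨y.1 - x, ?_⟩, fun k => ⟨k.1 + x, ?_⟩, ?_, ?_⟩
    · rw [AddMonoidHom.mem_ker, map_sub, (mem_cl.1 y.2).2, sub_self]
    · rw [mem_cl]
      refine ⟨mem_univ _, ?_⟩
      rw [map_add, (AddMonoidHom.mem_ker).1 k.2, zero_add]
    · intro y; simp
    · intro k; simp
  have h2 : Nat.card G = Nat.card f.range * Nat.card f.ker := by
    rw [AddSubgroup.card_eq_card_quotient_mul_card_addSubgroup f.ker]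
    congr 1
    exact Nat.card_congr (QuotientAddGroup.quotientKerEquivRange f).toEquiv
  have hk : (0 : ℝ) < Nat.card f.ker := by exact_mod_cast Nat.card_pos
  have hr : (0 : ℝ) < Nat.card f.range := by exact_mod_cast Nat.card_pos
  rw [En_eq hne]
  have h3 : ∀ x ∈ (univ : Finset G), Real.log (univ : Finset G).card - Real.log (cl univ f x).card =
      Real.log (Nat.card f.range) := by
    intro x _
    rw [h1, card_univ, ← Nat.card_eq_fintype_card, h2, Nat.cast_mul, Real.log_mul hr.ne' hk.ne']
    ring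
  rw [Finset.sum_congr rfl h3, Finset.sum_const, nsmul_eq_mul,
    mul_div_cancel_left₀ _ (card_pos' hne).ne']

/-- `U_V + φ(U_{V'})` is uniform on `V + φ(V')` -/
theorem H_UV_UV (V : AddSubgroup Q) [Fintype V] (V' : AddSubgroup R) [Fintype V'] (φ : R →+ Q) :
    H (UV V * PL (univ : Finset V') (fun v => φ v)) =
      Real.log (Nat.card (V ⊔ V'.map φ : AddSubgroup Q)) := by
  unfold UV
  rw [PL_mul, H_PL]
  have h1 : (univ : Finset V) ×ˢ (univ : Finset V') = (univ : Finset (V × V')) := rfl
  let f : V × V' →+ Q := (V.subtype).coprod (φ.comp V'.subtype)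
  have h2 : (fun p : V × V' => (p.1 : Q) + φ (p.2 : R)) = f := by
    funext p
    simp [f]
  rw [h1, h2, En_hom]
  have h3 : f.range = V ⊔ V'.map φ := ?_
  · rw [h3]
  ext x
  rw [AddMonoidHom.mem_range, AddSubgroup.mem_sup]
  constructor
  · rintro ⟨⟨a, b⟩, rfl⟩
    refine ⟨a, a.2, φ b, AddSubgroup.mem_map_of_mem _ b.2, ?_⟩
    simp [f]
  · rintro ⟨a, ha, c, hc, rfl⟩
    obtain ⟨b, hb, rfl⟩ := AddSubgroup.mem_map.1 hc
    exact ⟨(⟨a, ha⟩, ⟨b, hb⟩), by simp [f]⟩

/-! ### bounded exponent -/

/-- a finitely generated group of finite exponent is finite -/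
theorem finite_closure {N : AddSubgroup Q} {m : ℕ} (hm : 0 < m) (hN : ∀ x ∈ N, m • x = 0)
    (s : Finset Q) (hs : ∀ x ∈ s, x ∈ N) : Finite (AddSubgroup.closure (s : Set Q)) := by
  have hle : AddSubgroup.closure (s : Set Q) ≤ N := (AddSubgroup.closure_le N).2 hs
  have hfg : AddGroup.FG (AddSubgroup.closure (s : Set Q)) :=
    AddGroup.closure_finset_fg s
  refine @AddCommGroup.finite_of_fg_isAddTorsion _ _ hfg ?_
  intro x
  rw [isOfFinAddOrder_iff_nsmul_eq_zero]
  exact ⟨m, hm, Subtype.ext (by simpa using hN _ (hle x.2))⟩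

end Pool.Agent.W5h6.Skel
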